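import Pool.Agent.H92.EQ.TF2

/-!
Row G2 of the board `eqd_modules`.
-/

namespace Pool.Agent.H88.EQ

open Pool.Agent.H92.EQ
open scoped BigOperators ComplexConjugate ContDiff Topology
open MeasureTheory

noncomputable section

section inv

variable {E : Type} [NormedAddCommGroup E] [NormedSpace ℝ E] [FiniteDimensional ℝ E]
  [MeasurableSpace E] [BorelSpace E]

/-- A locally finite measure annihilating derivatives is translation invariant, on test
functions. -/
theorem integral_translate {μ : Measure E} [IsFiniteMeasureOnCompacts μ]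
    (h : ∀ (G : E → ℝ), ContDiff ℝ ∞ G → HasCompactSupport G → ∀ v, ∫ y, fderiv ℝ G y v ∂μ = 0)
    (G : E → ℝ) (hG : ContDiff ℝ ∞ G) (hc : HasCompactSupport G) (x : E) :
    ∫ y, G (y + x) ∂μ = ∫ y, G y ∂μ := by
  have : ProperSpace E := FiniteDimensional.proper ℝ E
  have hd : Differentiable ℝ G := hG.differentiable (by simp)
  have hcf : Continuous (fderiv ℝ G) := hG.continuous_fderiv (by simp)
  obtain ⟨C, hC⟩ := hcf.bounded_above_of_compact_support (hc.fderiv ℝ)
  obtain ⟨R, hR⟩ := hc.isCompact.isBounded.subset_closedBall (0 : E)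
  have hC0 : 0 ≤ C := le_trans (norm_nonneg _) (hC 0)
  let F : ℝ → E → ℝ := fun s y => G (y + s • x)
  have hderiv : ∀ s y, HasDerivAt (fun s => F s y) (fderiv ℝ G (y + s • x) x) s := by
    intro s y
    have h1 : HasDerivAt (fun s : ℝ => y + s • x) x s := by
      simpa using ((hasDerivAt_id s).smul_const x).const_add y
    exact (hd (y + s • x)).hasFDerivAt.comp_hasDerivAt s h1
  have hcs : ∀ s : ℝ, HasCompactSupport (F s) := fun s =>
    hc.comp_homeomorph (Homeomorph.addRight (s • x))
  have hcont : ∀ s : ℝ, Continuous (F s) := fun s =>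
    hG.continuous.comp (continuous_id.add continuous_const)
  have hzero : ∀ s : ℝ, ∫ y, fderiv ℝ G (y + s • x) x ∂μ = 0 := by
    intro s
    have h1 := h (F s) (hG.comp (contDiff_id.add contDiff_const)) (hcs s) x
    have h2 : ∀ y, fderiv ℝ (F s) y x = fderiv ℝ G (y + s • x) x := by
      intro y
      have h3 : HasFDerivAt (fun y : E => y + s • x) (ContinuousLinearMap.id ℝ E) y :=
        (hasFDerivAt_id y).add_const _
      have h4 := (hd (y + s • x)).hasFDerivAt.comp y h3
      have h5 : fderiv ℝ (F s) y = (fderiv ℝ G (y + s • x)).comp (ContinuousLinearMap.id ℝ E) :=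
        h4.fderiv
      rw [h5]
      rfl
    simpa only [h2] using h1
  have hder : ∀ s : ℝ, HasDerivAt (fun s => ∫ y, F s y ∂μ) 0 s := by
    intro s
    rw [← hzero s]
    let K : Set E := Metric.closedBall 0 (R + (|s| + 1) * ‖x‖)
    have hK : IsCompact K := isCompact_closedBall _ _
    refine (hasDerivAt_integral_of_dominated_loc_of_deriv_le (s := Metric.ball s 1)
      (F' := fun s y => fderiv ℝ G (y + s • x) x)
      (bound := K.indicator fun _ => C * ‖x‖) (Metric.ball_mem_nhds s one_pos)
      (Filter.Eventually.of_forall fun s => (hcont s).aestronglyMeasurable)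
      ((hcont s).integrable_of_hasCompactSupport (μ := μ) (hcs s)) ?_ ?_ ?_ ?_).2
    · exact ((hcf.comp (continuous_id.add continuous_const)).clm_apply
        continuous_const).aestronglyMeasurable
    · refine Filter.Eventually.of_forall fun y s' hs' => ?_
      have hs1 : |s'| ≤ |s| + 1 := by
        have h1 : |s' - s| < 1 := by simpa [Real.dist_eq] using hs'
        have h2 : |s'| ≤ |s' - s| + |s| := by
          have := abs_add_le (s' - s) s
          simpa using this
        linarith
      by_cases hy : y ∈ K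
      · rw [Set.indicator_of_mem hy]
        exact ((fderiv ℝ G (y + s' • x)).le_opNorm x).trans
          (mul_le_mul_of_nonneg_right (hC _) (norm_nonneg _))
      · rw [Set.indicator_of_notMem hy]
        have h3 : y + s' • x ∉ tsupport (fderiv ℝ G) := by
          intro h4
          have h5 := hR (tsupport_fderiv_subset ℝ h4)
          apply hy
          simp only [K, Metric.mem_closedBall, dist_zero_right] at h5 ⊢
          calc ‖y‖ = ‖(y + s' • x) - s' • x‖ := by rw [add_sub_cancel_right]
            _ ≤ ‖y + s' • x‖ + ‖s' • x‖ := norm_sub_le _ _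
            _ ≤ R + (|s| + 1) * ‖x‖ := by
              rw [norm_smul, Real.norm_eq_abs]
              exact add_le_add h5 (mul_le_mul_of_nonneg_right hs1 (norm_nonneg _))
        rw [image_eq_zero_of_notMem_tsupport h3]
        simp
    · rw [integrable_indicator_iff hK.measurableSet]
      exact integrableOn_const hK.measure_lt_top.ne
    · exact Filter.Eventually.of_forall fun y s' _ => hderiv s' y
  have hconst := is_const_of_deriv_eq_zero (fun s => (hder s).differentiableAt)
    (fun s => (hder s).deriv) 1 0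
  simpa [F] using hconst

/-- Measures agreeing on smooth test functions are equal. -/
theorem ext_of_test {μ ν : Measure E} [IsFiniteMeasureOnCompacts μ] [IsFiniteMeasureOnCompacts ν]
    (h : ∀ G : E → ℝ, ContDiff ℝ ∞ G → HasCompactSupport G → ∫ y, G y ∂μ = ∫ y, G y ∂ν) :
    μ = ν := by
  have : ProperSpace E := FiniteDimensional.proper ℝ E
  refine Measure.ext_of_integral_eq_on_compactlySupported fun f => ?_
  have hfc : Continuous f := f.continuous
  have hfs : HasCompactSupport f := f.hasCompactSupport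
  refine eq_of_forall_dist_le fun ε hε => ?_
  let K := tsupport f
  have hK : IsCompact K := hfs.isCompact
  let M := μ.real K + ν.real K + 1
  have hM : 0 < M := by positivity
  obtain ⟨g, hg, hgf, hsup⟩ := hfc.exists_contDiff_approx (⊤ : ℕ∞) (ε := fun _ => ε / M)
    continuous_const (fun _ => by positivity)
  have hgs : HasCompactSupport g := hfs.mono hsup
  have key : ∀ (ρ : Measure E) [IsFiniteMeasureOnCompacts ρ],
      dist (∫ y, f y ∂ρ) (∫ y, g y ∂ρ) ≤ ε / M * ρ.real K := by
    intro ρ _
    rw [dist_eq_norm, ← integral_sub (hfc.integrable_of_hasCompactSupport hfs)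
      (hg.continuous.integrable_of_hasCompactSupport hgs)]
    have h1 : ∫ y, (f y - g y) ∂ρ = ∫ y in K, (f y - g y) ∂ρ := by
      rw [setIntegral_eq_integral_of_forall_compl_eq_zero]
      intro y hy
      have hfy : f y = 0 := image_eq_zero_of_notMem_tsupport hy
      have hgy : g y = 0 := by
        by_contra h2
        exact (hsup h2) hfy
      rw [hfy, hgy, sub_zero]
    rw [h1]
    refine norm_setIntegral_le_of_norm_le_const hK.measure_lt_top fun y _ => ?_
    have := (hgf y).le
    rw [dist_comm, dist_eq_norm] at this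
    exact this
  calc dist (∫ y, f y ∂μ) (∫ y, f y ∂ν)
      ≤ dist (∫ y, f y ∂μ) (∫ y, g y ∂μ) + dist (∫ y, g y ∂μ) (∫ y, f y ∂ν) :=
        dist_triangle _ _ _
    _ ≤ ε / M * μ.real K + ε / M * ν.real K := by
        refine add_le_add (key μ) ?_
        rw [h g hg hgs, dist_comm]
        exact key ν
    _ = ε / M * (μ.real K + ν.real K) := by ring
    _ ≤ ε / M * M := by
        refine mul_le_mul_of_nonneg_left ?_ (by positivity)
        simp only [M]
        linarith
    _ = ε := by field_simp

end inv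

/-! ### The polynomial map -/

theorem eval_smul_hom {N D : ℕ} {φ : MvPolynomial (Fin N) ℂ} (h : φ.IsHomogeneous D) (l : ℂ)
    (z : Fin N → ℂ) : MvPolynomial.eval (l • z) φ = l ^ D * MvPolynomial.eval z φ := by
  rw [MvPolynomial.eval_eq', MvPolynomial.eval_eq', Finset.mul_sum]
  refine Finset.sum_congr rfl fun d hd => ?_
  have h1 : d.degree = D := by
    by_contra h0
    exact (MvPolynomial.mem_support_iff.mp hd) (h.coeff_eq_zero h0)
  have h2 : ∑ i, d i = D := by
    rw [← h1, Finsupp.degree_eq_sum]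
  have h3 : ∏ i, (l • z) i ^ d i = l ^ D * ∏ i, z i ^ d i := by
    simp only [Pi.smul_apply, smul_eq_mul, mul_pow, Finset.prod_mul_distrib]
    rw [Finset.prod_pow_eq_pow_sum, h2]
  rw [h3]
  ring

theorem ev_smul {N D : ℕ} {Φ : Fin N → MvPolynomial (Fin N) ℂ} (h : IsH D Φ) (l : ℂ)
    (z : Fin N → ℂ) : ev Φ (l • z) = l ^ D • ev Φ z := by
  funext i
  simp only [ev, Pi.smul_apply, smul_eq_mul]
  exact eval_smul_hom (h.hom i) l z

theorem continuous_ev {N : ℕ} (Φ : Fin N → MvPolynomial (Fin N) ℂ) : Continuous (ev Φ) :=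
  continuous_pi fun i => MvPolynomial.continuous_eval (Φ i)

theorem continuous_det {N : ℕ} (Φ : Fin N → MvPolynomial (Fin N) ℂ) :
    Continuous fun z => (jac Φ z).det :=
  Continuous.matrix_det (continuous_matrix fun _ _ => MvPolynomial.continuous_eval _)

/-- Lower bound. -/
theorem exists_lower {N D : ℕ} {Φ : Fin N → MvPolynomial (Fin N) ℂ} (hD : 1 ≤ D) (h : IsH D Φ) :
    ∃ c : ℝ, 0 < c ∧ ∀ z, c * ‖z‖ ^ D ≤ ‖ev Φ z‖ := by
  have hK : IsCompact (Metric.sphere (0 : Fin N → ℂ) 1) := isCompact_sphere _ _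
  rcases (Metric.sphere (0 : Fin N → ℂ) 1).eq_empty_or_nonempty with he | hne
  · refine ⟨1, one_pos, fun z => ?_⟩
    have hz : z = 0 := by
      by_contra hz
      have h1 : ((‖z‖⁻¹ : ℝ) : ℂ) • z ∈ Metric.sphere (0 : Fin N → ℂ) 1 := by
        rw [mem_sphere_zero_iff_norm, norm_smul, Complex.norm_real, norm_inv, norm_norm,
          inv_mul_cancel₀ (norm_ne_zero_iff.mpr hz)]
      rw [he] at h1
      exact h1
    rw [hz, norm_zero, zero_pow (by omega), mul_zero]
    exact norm_nonneg _
  · obtain ⟨w, hw, hmin⟩ := hK.exists_isMinOn hne (continuous_ev Φ).norm.continuousOn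
    have hw1 : ‖w‖ = 1 := mem_sphere_zero_iff_norm.mp hw
    refine ⟨‖ev Φ w‖, ?_, fun z => ?_⟩
    · rw [norm_pos_iff]
      intro h0
      rw [h.nd w h0, norm_zero] at hw1
      exact zero_ne_one hw1
    · by_cases hz : z = 0
      · rw [hz, norm_zero, zero_pow (by omega), mul_zero]
        exact norm_nonneg _
      have hz' : 0 < ‖z‖ := norm_pos_iff.mpr hz
      have h1 : ((‖z‖⁻¹ : ℝ) : ℂ) • z ∈ Metric.sphere (0 : Fin N → ℂ) 1 := by
        rw [mem_sphere_zero_iff_norm, norm_smul, Complex.norm_real, norm_inv, norm_norm,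
          inv_mul_cancel₀ hz'.ne']
      have h2 : ‖ev Φ w‖ ≤ ‖ev Φ (((‖z‖⁻¹ : ℝ) : ℂ) • z)‖ := hmin h1
      rw [ev_smul h, norm_smul, norm_pow, Complex.norm_real, norm_inv, norm_norm] at h2
      calc ‖ev Φ w‖ * ‖z‖ ^ D ≤ (‖z‖⁻¹ ^ D * ‖ev Φ z‖) * ‖z‖ ^ D :=
            mul_le_mul_of_nonneg_right h2 (by positivity)
        _ = (‖z‖⁻¹ * ‖z‖) ^ D * ‖ev Φ z‖ := by
            rw [mul_pow]; ring
        _ = ‖ev Φ z‖ := by
            rw [inv_mul_cancel₀ hz'.ne', one_pow, one_mul]

/-- The push-forward of `|det|² dz`. -/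
def pf {N : ℕ} (Φ : Fin N → MvPolynomial (Fin N) ℂ) : Measure (Fin N → ℂ) :=
  Measure.map (ev Φ) ((volume : Measure (Fin N → ℂ)).withDensity
    (fun z => ENNReal.ofReal (‖(jac Φ z).det‖ ^ 2)))

theorem isCompact_preimage {N D : ℕ} {Φ : Fin N → MvPolynomial (Fin N) ℂ} (hD : 1 ≤ D)
    (h : IsH D Φ) {K : Set (Fin N → ℂ)} (hK : IsCompact K) : IsCompact (ev Φ ⁻¹' K) := by
  obtain ⟨c, hc, hb⟩ := exists_lower hD h
  obtain ⟨R, hR⟩ := hK.isBounded.subset_closedBall (0 : Fin N → ℂ)
  refine Metric.isCompact_of_isClosed_isBounded (hK.isClosed.preimage (continuous_ev Φ)) ?_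
  refine (Metric.isBounded_closedBall (x := (0 : Fin N → ℂ)) (r := max 1 (R / c))).subset ?_
  intro z hz
  rw [mem_closedBall_zero_iff]
  by_cases h1 : ‖z‖ ≤ 1
  · exact h1.trans (le_max_left _ _)
  push Not at h1
  refine le_trans ?_ (le_max_right _ _)
  rw [le_div_iff₀ hc]
  have h2 : ‖ev Φ z‖ ≤ R := mem_closedBall_zero_iff.mp (hR hz)
  have h3 : ‖z‖ ≤ ‖z‖ ^ D := le_self_pow₀ h1.le (by omega)
  calc ‖z‖ * c ≤ ‖z‖ ^ D * c := mul_le_mul_of_nonneg_right h3 hc.le
    _ = c * ‖z‖ ^ D := mul_comm _ _
    _ ≤ ‖ev Φ z‖ := hb z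
    _ ≤ R := h2

theorem measurable_dens {N : ℕ} (Φ : Fin N → MvPolynomial (Fin N) ℂ) :
    Measurable fun z => ENNReal.ofReal (‖(jac Φ z).det‖ ^ 2) :=
  ENNReal.measurable_ofReal.comp ((continuous_det Φ).norm.pow 2).measurable

theorem finiteOnCompacts_pf {N D : ℕ} {Φ : Fin N → MvPolynomial (Fin N) ℂ} (hD : 1 ≤ D)
    (h : IsH D Φ) : IsFiniteMeasureOnCompacts (pf Φ) := by
  refine ⟨fun K hK => ?_⟩
  have hK' := isCompact_preimage hD h hK
  rw [pf, Measure.map_apply (continuous_ev Φ).measurable hK.measurableSet,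
    withDensity_apply _ hK'.measurableSet]
  have h1 : IntegrableOn (fun z => ‖(jac Φ z).det‖ ^ 2) (ev Φ ⁻¹' K) :=
    (((continuous_det Φ).norm.pow 2).continuousOn).integrableOn_compact hK'
  have h2 := h1.lintegral_lt_top
  exact h2

theorem integral_pf {N : ℕ} (Φ : Fin N → MvPolynomial (Fin N) ℂ) {F : Type}
    [NormedAddCommGroup F] [NormedSpace ℝ F] [CompleteSpace F] [MeasurableSpace F] [BorelSpace F]
    [SecondCountableTopology F] {f : (Fin N → ℂ) → F} (hf : Measurable f) :
    ∫ y, f y ∂(pf Φ) = ∫ z, (‖(jac Φ z).det‖ ^ 2) • f (ev Φ z) := by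
  rw [pf, integral_map (continuous_ev Φ).measurable.aemeasurable
    hf.aestronglyMeasurable,
    integral_withDensity_eq_integral_toReal_smul (measurable_dens Φ)
      (Filter.Eventually.of_forall fun z => ENNReal.ofReal_lt_top)]
  refine integral_congr_ae (Filter.Eventually.of_forall fun z => ?_)
  simp only
  rw [ENNReal.toReal_ofReal (by positivity)]

theorem pf_G2 (h1 : T_G1) : T_G2 := by
  intro N D Φ hD hΦ
  have hfin := finiteOnCompacts_pf hD hΦ
  have hder : ∀ (G : (Fin N → ℂ) → ℝ), ContDiff ℝ ∞ G → HasCompactSupport G → ∀ v,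
      ∫ y, fderiv ℝ G y v ∂(pf Φ) = 0 := by
    intro G hG hc v
    let F : (Fin N → ℂ) → ℂ := fun w => (G w : ℂ)
    have hF : ContDiff ℝ ∞ F := Complex.ofRealCLM.contDiff.comp hG
    have hFc : HasCompactSupport F := hc.comp_left (g := fun r : ℝ => (r : ℂ)) (by simp)
    have hFd : Differentiable ℝ F := hF.differentiable (by simp)
    have hfd : ∀ y w, fderiv ℝ F y w = ((fderiv ℝ G y w : ℝ) : ℂ) := by
      intro y w
      have h3 : HasFDerivAt F (Complex.ofRealCLM.comp (fderiv ℝ G y)) y :=
        Complex.ofRealCLM.hasFDerivAt.comp y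
          ((hG.differentiable (by simp)) y).hasFDerivAt
      rw [h3.fderiv]
      rfl
    have hcont : Continuous (fderiv ℝ F) := hF.continuous_fderiv (by simp)
    have hI : ∀ w, Integrable (fun y => fderiv ℝ F y w) (pf Φ) := by
      intro w
      refine (hcont.clm_apply continuous_const).integrable_of_hasCompactSupport ?_
      exact (hFc.fderiv ℝ).comp_left (g := fun L => L w) (by simp)
    have hwd : ∀ a, ∫ y, wd a F y ∂(pf Φ) = 0 ∧ ∫ y, wdb a F y ∂(pf Φ) = 0 := by
      intro a
      have hm1 : Measurable (fun y => wd a F y) := by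
        unfold wd
        exact (((hcont.clm_apply continuous_const).sub
          (continuous_const.mul (hcont.clm_apply continuous_const))).div_const 2).measurable
      have hm2 : Measurable (fun y => wdb a F y) := by
        unfold wdb
        exact (((hcont.clm_apply continuous_const).add
          (continuous_const.mul (hcont.clm_apply continuous_const))).div_const 2).measurable
      have h4 := h1 N D Φ hD hΦ F a hF hFc
      constructor
      · rw [integral_pf Φ hm1, ← h4.1]
        rfl
      · rw [integral_pf Φ hm2, ← h4.2]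
        rfl
    have hone : ∀ a, ∫ y, fderiv ℝ F y (Pi.single a 1) ∂(pf Φ) = 0 ∧
        ∫ y, fderiv ℝ F y (Pi.single a Complex.I) ∂(pf Φ) = 0 := by
      intro a
      obtain ⟨h5, h6⟩ := hwd a
      have h7 : ∫ y, wd a F y ∂(pf Φ) = (∫ y, fderiv ℝ F y (Pi.single a 1) ∂(pf Φ) -
          Complex.I * ∫ y, fderiv ℝ F y (Pi.single a Complex.I) ∂(pf Φ)) / 2 := by
        unfold wd
        rw [integral_div, integral_sub (hI _) ((hI _).const_mul _), integral_const_mul]
      have h8 : ∫ y, wdb a F y ∂(pf Φ) = (∫ y, fderiv ℝ F y (Pi.single a 1) ∂(pf Φ) +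
          Complex.I * ∫ y, fderiv ℝ F y (Pi.single a Complex.I) ∂(pf Φ)) / 2 := by
        unfold wdb
        rw [integral_div, integral_add (hI _) ((hI _).const_mul _), integral_const_mul]
      rw [h5] at h7
      rw [h6] at h8
      have h9 : ∫ y, fderiv ℝ F y (Pi.single a 1) ∂(pf Φ) = 0 := by
        linear_combination -h7 - h8
      refine ⟨h9, ?_⟩
      have h10 : Complex.I * ∫ y, fderiv ℝ F y (Pi.single a Complex.I) ∂(pf Φ) = 0 := by
        linear_combination h7 - h8
      exact (mul_eq_zero.mp h10).resolve_left Complex.I_ne_zero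
    have hv : v = ∑ a, ((v a).re • (Pi.single a (1 : ℂ) : Fin N → ℂ) +
        (v a).im • (Pi.single a Complex.I : Fin N → ℂ)) := by
      funext b
      simp only [Finset.sum_apply, Pi.add_apply, Pi.smul_apply]
      rw [Finset.sum_eq_single b]
      · simp only [Pi.single_eq_same, Complex.real_smul, mul_one]
        exact (Complex.re_add_im (v b)).symm
      · intro a _ hab
        simp [Pi.single_eq_of_ne hab.symm]
      · intro hb
        exact absurd (Finset.mem_univ b) hb
    have hFv : ∫ y, fderiv ℝ F y v ∂(pf Φ) = 0 := by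
      have h11 : ∀ y, fderiv ℝ F y v = ∑ a, ((v a).re • fderiv ℝ F y (Pi.single a 1) +
          (v a).im • fderiv ℝ F y (Pi.single a Complex.I)) := by
        intro y
        conv_lhs => rw [hv]
        simp only [map_sum, map_add, map_smul]
      simp only [h11]
      have hS : ∀ (c : ℝ) (w : Fin N → ℂ), Integrable (fun y => c • fderiv ℝ F y w) (pf Φ) :=
        fun c w => (hI w).smul c
      have h13 : ∀ a ∈ (Finset.univ : Finset (Fin N)), Integrable (fun y =>
          (v a).re • fderiv ℝ F y (Pi.single a 1) +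
          (v a).im • fderiv ℝ F y (Pi.single a Complex.I)) (pf Φ) :=
        fun a _ => (hS _ _).add (hS _ _)
      rw [integral_finsetSum _ h13]
      refine Finset.sum_eq_zero fun a _ => ?_
      rw [integral_add (hS _ _) (hS _ _), integral_smul, integral_smul,
        (hone a).1, (hone a).2]
      simp
    have h12 : ∫ y, fderiv ℝ F y v ∂(pf Φ) = ((∫ y, fderiv ℝ G y v ∂(pf Φ) : ℝ) : ℂ) := by
      simp only [hfd]
      exact integral_ofReal
    rw [h12] at hFv
    exact_mod_cast hFv
  have hinv : Measure.IsAddLeftInvariant (pf Φ) := by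
    refine ⟨fun x => ?_⟩
    have : IsFiniteMeasureOnCompacts (Measure.map (fun y => x + y) (pf Φ)) :=
      Measure.IsFiniteMeasureOnCompacts.map (pf Φ) (Homeomorph.addLeft x)
    refine ext_of_test fun G hG hc => ?_
    rw [integral_map (measurable_const_add x).aemeasurable
      hG.continuous.aestronglyMeasurable]
    have := integral_translate hder G hG hc x
    simpa only [add_comm x] using this
  have hmain := Measure.isAddLeftInvariant_eq_smul (pf Φ) (volume : Measure (Fin N → ℂ))
  exact ⟨_, ENNReal.coe_ne_top, hmain⟩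

end

end Pool.Agent.H88.EQ
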