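import Pool.Agent.H92.EQ.TK

/-!
Rows KEY1, KEY2 of the board `eqd_modules`.
-/

namespace Pool.Agent.H88.EQ.KEYrow

open Pool.Agent.H92.EQ
open scoped BigOperators ComplexConjugate ContDiff Topology
open MeasureTheory

noncomputable section

section api

variable {N p q : ℕ}

/-- The shell. -/
def shell (N : ℕ) : Set (Fin N → ℂ) := {z : Fin N → ℂ | 0 ≤ ell z ∧ ell z < 1}

/-- Integrability of the density. -/
def Adm (S : Form (Fin N) p) (u : Fin q → (Fin N → ℂ) → ℝ) (φ : (Fin N → ℂ) → ℝ) : Prop :=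
  IntegrableOn (fun z => φ z * Q S u z) (shell N)

theorem pair_add {S : Form (Fin N) p} {u : Fin q → (Fin N → ℂ) → ℝ} {φ ψ : (Fin N → ℂ) → ℝ}
    (h1 : Adm S u φ) (h2 : Adm S u ψ) :
    pair (fun z => φ z + ψ z) S u = pair φ S u + pair ψ S u := by
  show ∫ z in shell N, (φ z + ψ z) * Q S u z =
    (∫ z in shell N, φ z * Q S u z) + ∫ z in shell N, ψ z * Q S u z
  rw [← integral_add h1 h2]
  refine integral_congr_ae (Filter.Eventually.of_forall fun z => ?_)
  simp only
  ring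

theorem pair_cmul {S : Form (Fin N) p} {u : Fin q → (Fin N → ℂ) → ℝ} {φ : (Fin N → ℂ) → ℝ}
    (c : ℝ) : pair (fun z => c * φ z) S u = c * pair φ S u := by
  unfold pair Iint
  rw [← integral_const_mul]
  refine integral_congr_ae (Filter.Eventually.of_forall fun z => ?_)
  simp only
  ring

theorem Adm.add {S : Form (Fin N) p} {u : Fin q → (Fin N → ℂ) → ℝ} {φ ψ : (Fin N → ℂ) → ℝ}
    (h1 : Adm S u φ) (h2 : Adm S u ψ) : Adm S u (fun z => φ z + ψ z) := by
  have := Integrable.add h1 h2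
  refine this.congr (Filter.Eventually.of_forall fun z => ?_)
  simp only [Pi.add_apply]
  ring

theorem Adm.cmul {S : Form (Fin N) p} {u : Fin q → (Fin N → ℂ) → ℝ} {φ : (Fin N → ℂ) → ℝ}
    (h : Adm S u φ) (c : ℝ) : Adm S u (fun z => c * φ z) := by
  have := Integrable.const_mul h c
  refine this.congr (Filter.Eventually.of_forall fun z => ?_)
  simp only
  ring

theorem ae_ne_zero (hN : 0 < N) : ∀ᵐ z : Fin N → ℂ, z ≠ 0 := by
  obtain ⟨k, rfl⟩ : ∃ k, N = k + 1 := ⟨N - 1, by omega⟩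
  rw [ae_iff]
  simp

theorem pair_mono (hN : 0 < N) {S : Form (Fin N) p} {u : Fin q → (Fin N → ℂ) → ℝ}
    {φ ψ : (Fin N → ℂ) → ℝ} (hQ : ∀ z, z ≠ 0 → 0 ≤ Q S u z) (h1 : Adm S u φ) (h2 : Adm S u ψ)
    (h : ∀ z, z ≠ 0 → φ z ≤ ψ z) : pair φ S u ≤ pair ψ S u := by
  unfold pair Iint
  refine integral_mono_ae h1 h2 ?_
  refine ae_restrict_of_ae ?_
  filter_upwards [ae_ne_zero hN] with z hz
  exact mul_le_mul_of_nonneg_right (h z hz) (hQ z hz)

theorem pair_congr (hN : 0 < N) {S : Form (Fin N) p} {u : Fin q → (Fin N → ℂ) → ℝ}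
    {φ ψ : (Fin N → ℂ) → ℝ} (h : ∀ z, z ≠ 0 → φ z = ψ z) : pair φ S u = pair ψ S u := by
  unfold pair Iint
  refine integral_congr_ae (ae_restrict_of_ae ?_)
  filter_upwards [ae_ne_zero hN] with z hz
  rw [h z hz]

end api

theorem measurable_ell {N : ℕ} : Measurable (ell : (Fin N → ℂ) → ℝ) := by
  unfold ell nsq
  refine (Real.measurable_log.comp ?_).const_mul _
  exact (continuous_finsetSum _ fun i _ => ((continuous_apply i).norm.pow 2)).measurable

theorem continuous_ev {N : ℕ} (Φ : Fin N → MvPolynomial (Fin N) ℂ) : Continuous (ev Φ) :=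
  continuous_pi fun i => MvPolynomial.continuous_eval (Φ i)

theorem measurable_nv {N : ℕ} (h : MvPolynomial (Fin N) ℂ) (m : ℕ) : Measurable (nv h m) := by
  unfold nv nrm nsq
  refine (MvPolynomial.continuous_eval h).norm.measurable.div ?_
  refine (Real.continuous_sqrt.measurable.comp ?_).pow_const m
  exact (continuous_finsetSum _ fun i _ => ((continuous_apply i).norm.pow 2)).measurable

/-- The inequality behind both key estimates. -/
theorem core (hKB : T_KB) (hKA : T_KA) (hKI : T_KI) (hP1 : T_P1) (hP3 : T_P3) (hP5 : T_P5)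
    (hL1 : T_L1) (hL3 : T_L3) (hD12 : T_D12) {N d p q : ℕ}
    {F : Fin N → MvPolynomial (Fin N) ℂ} (hd : 2 ≤ d) (hN : p + q + 1 = N) (hF : IsH d F)
    {CJ : ℝ} (hCJ1 : 1 ≤ CJ) (hCJ : ∀ z, z ≠ 0 → nv (detP F) (N * (d - 1)) z ≤ CJ)
    (m i : ℕ) {δ r h : ℝ} {S : Form (Fin N) p} (hδ : 0 < δ) (hr : 0 < r) (hr1 : r ≤ 1)
    (hh : 0 ≤ h) (hHit : Hit F d i r h) (hS : ProjForm S)
    (hmass : mass q S = mass q (om N p)) :
    δ * (d : ℝ) ^ (i + m) * beta F d (i + m) i q (Real.exp (-(δ * (d : ℝ) ^ (i + m)))) S ≤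
      (δ * (d : ℝ) ^ (i + m) * h + Real.log (1 / r) + (1 / 2) * Real.log (CJ ^ 2 + 1)) *
        mass q (om N p) +
      ((N * (d - 1) : ℕ) : ℝ) * (d : ℝ) ^ m *
        (pair (fun z => Gn F d m z - (1 / (d : ℝ) ^ m) * we (detP F) (N * (d - 1))
            (Real.exp (-(δ * (d : ℝ) ^ (i + m)))) (ev (iter F m) z))
          (Sn F d (i + m) S) (fun _ : Fin q => ell) -
        pair (fun z => Gn F d m z - (1 / (d : ℝ) ^ m) * we (detP F) (N * (d - 1))
            (Real.exp (-(δ * (d : ℝ) ^ (i + m)))) (ev (iter F m) z))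
          (Sn F d (i + m) S) (fun _ : Fin q => Gn F d (i + m))) := by
  have hN0 : 0 < N := by omega
  have hd1 : 1 ≤ d := by omega
  have hdr : (0 : ℝ) < d := by exact_mod_cast (by omega : 0 < d)
  set X : ℝ := δ * (d : ℝ) ^ (i + m) with hX
  have hX0 : 0 < X := by positivity
  set ε : ℝ := Real.exp (-X) with hε
  have hε0 : 0 < ε := Real.exp_pos _
  have hε1 : ε ≤ 1 := by rw [hε]; exact Real.exp_le_one_iff.mpr (by linarith)
  set Mn : ℕ := N * (d - 1) with hMn
  obtain ⟨-, -, -, -, hwe⟩ := hKB N d F hN0 hd hF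
  obtain ⟨hwPot, hwid⟩ := hwe ε hε0
  rw [← hMn] at hwPot hwid
  set w : (Fin N → ℂ) → ℝ := we (detP F) Mn ε with hw
  have hit := (hD12 N d F hd1 hF 0 m).1
  have hSn : ProjForm (Sn F d (i + m) S) := (hD12 N d F hd1 hF 0 (i + m)).2.2.2.2 p S hS
  have hmassn : mass q (Sn F d (i + m) S) = mass q (om N p) := by
    rw [((hP5 N p q d S hN hS).2.1 F (i + m) hd1 hF), hmass]
  have hellPot : Pot (ell : (Fin N → ℂ) → ℝ) := (hL3 N).1
  have hell : LH 1 (ell : (Fin N → ℂ) → ℝ) := (hL1 N 0 0 0 0 ell ell).2.2.1 hellPot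
  have hwLH : LH 1 w := (hL1 N 0 0 0 0 w w).2.2.1 hwPot
  -- the function
  let φ0 : (Fin N → ℂ) → ℝ := fun z => (Mn : ℝ) * ell z + (-(Mn : ℝ)) * w z
  have hφ0LH : LH ((Mn : ℝ) * 1 + (-(Mn : ℝ)) * 1) φ0 := (hL1 N 1 1 Mn (-(Mn : ℝ)) ell w).1 hell hwLH
  have hφ0LH' : LH 0 φ0 := by
    have e : (Mn : ℝ) * 1 + (-(Mn : ℝ)) * 1 = 0 := by ring
    rwa [e] at hφ0LH
  have hφ0 : Hom0 φ0 := (hL1 N 0 0 0 0 φ0 φ0).2.1.mpr hφ0LH'
  have hφ0v : ∀ z, z ≠ 0 → φ0 z = -((1 / 2) * Real.log (nv (detP F) Mn z ^ 2 + ε ^ 2)) := by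
    intro z hz
    have := hwid z hz
    simp only [φ0]
    linarith
  have hFm0 : ∀ z, z ≠ 0 → ev (iter F m) z ≠ 0 := fun z hz h => hz (hit.nd z h)
  have hφm : LH (((d ^ m : ℕ) : ℝ) * 0) (fun z => φ0 (ev (iter F m) z)) :=
    (hL1 N 0 0 0 0 φ0 φ0).2.2.2 (d ^ m) (iter F m) hit hφ0LH'
  have hnv0 : ∀ z, 0 ≤ nv (detP F) Mn z := by
    intro z
    unfold nv nrm
    positivity
  have hb0 : Real.log 2 ≤ Real.log (CJ ^ 2 + 1) :=
    Real.log_le_log (by norm_num) (by nlinarith)
  -- the scaling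
  have hscale : ∀ u : Fin q → (Fin N → ℂ) → ℝ,
      pair (fun z => φ0 (ev (iter F m) z)) (Sn F d (i + m) S) u =
      (Mn : ℝ) * (d : ℝ) ^ m * pair (fun z => Gn F d m z - (1 / (d : ℝ) ^ m) *
        w (ev (iter F m) z)) (Sn F d (i + m) S) u := by
    intro u
    rw [← pair_cmul]
    congr 1
    funext z
    simp only [φ0, Gn]
    field_simp
    ring
  -- integrability
  have hQ := (hP3 N p q (Sn F d (i + m) S) (fun _ => ell) hN hSn (fun _ => hellPot)).1
  have hmassn2 : pair (fun _ => 1) (Sn F d (i + m) S) (fun _ : Fin q => ell) =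
      mass q (om N p) := hmassn
  have hp1 := hP1 N p q (Sn F d (i + m) S) (fun _ => ell) (fun _ => 1) hN hSn (fun _ => hell)
  have hadm1 : Adm (Sn F d (i + m) S) (fun _ : Fin q => ell) (fun z =>
      Set.indicator (Cr F d ε) (fun _ => (1 : ℝ)) (ev (iter F m) z)) := by
    refine hp1.1 _ 1 ?_ ?_
    · have hm : MeasurableSet (Cr F d ε) :=
        measurableSet_lt (measurable_nv _ _) measurable_const
      exact (measurable_const.indicator hm).comp (continuous_ev _).measurable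
    · intro z _
      by_cases hz : ev (iter F m) z ∈ Cr F d ε
      · rw [Set.indicator_of_mem hz]; simp
      · rw [Set.indicator_of_notMem hz]; simp
  have hadm2 : Adm (Sn F d (i + m) S) (fun _ : Fin q => ell)
      (fun z => φ0 (ev (iter F m) z)) := hp1.2 _ hφm.smooth.continuousOn
  have hadm3 : Adm (Sn F d (i + m) S) (fun _ : Fin q => ell) (fun _ => (1 : ℝ)) :=
    hp1.2 _ continuousOn_const
  -- Chebyshev
  have hcheb : X * beta F d (i + m) i q ε S ≤
      pair (fun z => φ0 (ev (iter F m) z)) (Sn F d (i + m) S) (fun _ : Fin q => ell) +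
        (1 / 2) * Real.log (CJ ^ 2 + 1) * mass q (om N p) := by
    unfold beta
    rw [Nat.add_sub_cancel_left, ← hmassn2, ← pair_cmul, ← pair_cmul,
      ← pair_add hadm2 (hadm3.cmul _)]
    refine pair_mono hN0 hQ (hadm1.cmul _) (hadm2.add (hadm3.cmul _)) fun z hz => ?_
    rw [hφ0v _ (hFm0 z hz)]
    have h1 := hCJ _ (hFm0 z hz)
    have h2 := hnv0 (ev (iter F m) z)
    by_cases hz' : ev (iter F m) z ∈ Cr F d ε
    · rw [Set.indicator_of_mem hz']
      have h3 : nv (detP F) Mn (ev (iter F m) z) < ε := hz'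
      have h4 : Real.log (nv (detP F) Mn (ev (iter F m) z) ^ 2 + ε ^ 2) ≤
          Real.log (2 * ε ^ 2) := by
        refine Real.log_le_log (by positivity) ?_
        nlinarith
      have h5 : Real.log (2 * ε ^ 2) = Real.log 2 - 2 * X := by
        rw [Real.log_mul (by norm_num) (by positivity), Real.log_pow, hε, Real.log_exp]
        push_cast
        ring
      rw [h5] at h4
      linarith
    · rw [Set.indicator_of_notMem hz']
      have h4 : Real.log (nv (detP F) Mn (ev (iter F m) z) ^ 2 + ε ^ 2) ≤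
          Real.log (CJ ^ 2 + 1) := by
        refine Real.log_le_log (by positivity) ?_
        nlinarith
      linarith
  -- KI
  have hki : pair (fun z => φ0 (ev (iter F m) z)) (Sn F d (i + m) S)
      (fun _ : Fin q => Gn F d (i + m)) ≤ (X * h + Real.log (1 / r)) * mass q (om N p) := by
    have hlr : 0 ≤ Real.log (1 / r) := Real.log_nonneg (by
      rw [le_div_iff₀ hr]; linarith)
    refine hKI N d p q m i F S φ0 h r X (Real.log (1 / r)) hd hN hF hS hmass hφ0 hh hX0.le hlr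
      hHit ?_ ?_
    · intro z hz
      rw [hφ0v z hz]
      have h4 : Real.log (ε ^ 2) ≤ Real.log (nv (detP F) Mn z ^ 2 + ε ^ 2) :=
        Real.log_le_log (by positivity) (by nlinarith [hnv0 z])
      rw [Real.log_pow, hε, Real.log_exp] at h4
      push_cast at h4
      rw [hε]
      linarith
    · intro z hz hz'
      rw [hφ0v z hz]
      have h3 : r ≤ nv (detP F) Mn z := not_lt.mp hz'
      have h4 : Real.log (r ^ 2) ≤ Real.log (nv (detP F) Mn z ^ 2 + ε ^ 2) :=
        Real.log_le_log (by positivity) (by nlinarith)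
      rw [Real.log_pow] at h4
      push_cast at h4
      have h5 : Real.log (1 / r) = -Real.log r := by rw [one_div, Real.log_inv]
      rw [h5]
      linarith
  have hs1 := hscale (fun _ : Fin q => ell)
  have hs2 := hscale (fun _ : Fin q => Gn F d (i + m))
  rw [mul_sub, ← hs1, ← hs2]
  have hfin : (X * h + Real.log (1 / r) + 1 / 2 * Real.log (CJ ^ 2 + 1)) * mass q (om N p) =
      (X * h + Real.log (1 / r)) * mass q (om N p) +
      1 / 2 * Real.log (CJ ^ 2 + 1) * mass q (om N p) := by ring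
  rw [hfin]
  linarith

theorem pf_KEY1 (hKA : T_KA) (hKB : T_KB) (hKE : T_KE) (hKI : T_KI) (hP1 : T_P1) (hP3 : T_P3)
    (hP5 : T_P5) (hL1 : T_L1) (hL3 : T_L3) (hD12 : T_D12) : T_KEY1 := by
  intro N d p q F hd hN hF
  have hN0 : 0 < N := by omega
  have hd1 : 1 ≤ d := by omega
  have hdr : (0 : ℝ) < d := by exact_mod_cast (by omega : 0 < d)
  obtain ⟨CJ, hCJ1, hCJ⟩ := (hKB N d F hN0 hd hF).2.2.2.1
  obtain ⟨hGpot, hGrel, B, hB, hGB, -⟩ := hKA N d F hd hF
  have hellPot : Pot (ell : (Fin N → ℂ) → ℝ) := (hL3 N).1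
  set b0 : ℝ := (1 / 2) * Real.log (CJ ^ 2 + 1) with hb0
  have hb0' : 0 ≤ b0 := by
    rw [hb0]
    exact mul_nonneg (by norm_num) (Real.log_nonneg (by nlinarith))
  set K : ℝ := 2 * q * ((N * (d - 1) : ℕ) : ℝ) * B with hK
  have hK0 : 0 ≤ K := by positivity
  refine ⟨K + b0 + 1, by positivity, ?_⟩
  intro n i δ r h S hin hδ hr hr1 hh hHit hS hmass
  obtain ⟨m, rfl⟩ : ∃ m, n = i + m := ⟨n - i, by omega⟩
  have hcore := core hKB hKA hKI hP1 hP3 hP5 hL1 hL3 hD12 hd hN hF hCJ1 hCJ m i hδ hr hr1 hh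
    hHit hS hmass
  have hSn : ProjForm (Sn F d (i + m) S) := (hD12 N d F hd1 hF 0 (i + m)).2.2.2.2 p S hS
  have hmassn : mass q (Sn F d (i + m) S) = mass q (om N p) := by
    rw [((hP5 N p q d S hN hS).2.1 F (i + m) hd1 hF), hmass]
  have hc0 : 0 ≤ mass q (om N p) := by
    rw [← hmass]
    exact (hP5 N p q d S hN hS).2.2
  set X : ℝ := δ * (d : ℝ) ^ (i + m) with hX
  have hX0 : 0 < X := by positivity
  have hwPot := ((hKB N d F hN0 hd hF).2.2.2.2 (Real.exp (-X)) (Real.exp_pos _)).1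
  have hit := (hD12 N d F hd1 hF 0 m).1
  have hWPot : Pot (fun z => (1 / (d : ℝ) ^ m) * we (detP F) (N * (d - 1)) (Real.exp (-X))
      (ev (iter F m) z)) := by
    have := (hL3 N).2.2 (d ^ m) (iter F m) _ (Nat.one_le_pow _ _ (by omega)) hit hwPot
    push_cast at this
    exact this
  have hke := hKE N p q (Sn F d (i + m) S) _ _ _ _ B hN hSn hWPot (hGpot m) (hGpot (i + m))
    hellPot (hGB (i + m))
  rw [hmassn] at hke
  have hke2 := (abs_le.mp hke).2
  have hlr : 0 ≤ Real.log (1 / r) := Real.log_nonneg (by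
    rw [le_div_iff₀ hr]; linarith)
  set c0 := mass q (om N p) with hc0def
  set β := beta F d (i + m) i q (Real.exp (-X)) S with hβ
  have hdm : (0 : ℝ) < (d : ℝ) ^ m := by positivity
  have hdi : (0 : ℝ) < (d : ℝ) ^ i := by positivity
  have h1 : X * β ≤ (X * h + Real.log (1 / r) + b0) * c0 + K * (d : ℝ) ^ m * c0 := by
    refine hcore.trans ?_
    refine add_le_add le_rfl ?_
    calc ((N * (d - 1) : ℕ) : ℝ) * (d : ℝ) ^ m * _ ≤
        ((N * (d - 1) : ℕ) : ℝ) * (d : ℝ) ^ m * (2 * q * B * c0) :=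
          mul_le_mul_of_nonneg_left hke2 (by positivity)
      _ = K * (d : ℝ) ^ m * c0 := by rw [hK]; ring
  have h2 : β ≤ ((X * h + Real.log (1 / r) + b0) * c0 + K * (d : ℝ) ^ m * c0) / X := by
    rw [le_div_iff₀ hX0]
    linarith
  refine h2.trans ?_
  have h3 : ((X * h + Real.log (1 / r) + b0) * c0 + K * (d : ℝ) ^ m * c0) / X =
      (h + K / (δ * (d : ℝ) ^ i) + (Real.log (1 / r) + b0) / X) * c0 := by
    rw [hX, pow_add]
    field_simp
    ring
  rw [h3]
  refine mul_le_mul_of_nonneg_right ?_ hc0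
  have h4 : K / (δ * (d : ℝ) ^ i) ≤ (K + b0 + 1) / (δ * (d : ℝ) ^ i) :=
    div_le_div_of_nonneg_right (by linarith) (by positivity)
  have h5 : (Real.log (1 / r) + b0) / X ≤ (2 * Real.log (1 / r) + (K + b0 + 1)) / X :=
    div_le_div_of_nonneg_right (by linarith) hX0.le
  linarith

theorem pf_KEY2 (hKA : T_KA) (hKB : T_KB) (hKE2 : T_KE2) (hKF : T_KF) (hKH : T_KH)
    (hKI : T_KI) (hP1 : T_P1) (hP3 : T_P3) (hP5 : T_P5) (hL1 : T_L1) (hL3 : T_L3)
    (hD7 : T_D7) (hD12 : T_D12) : T_KEY2 := by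
  intro N d p q F hd hN hF hConv
  have hN0 : 0 < N := by omega
  have hd1 : 1 ≤ d := by omega
  have hdr : (0 : ℝ) < d := by exact_mod_cast (by omega : 0 < d)
  obtain ⟨CJ, hCJ1, hCJ⟩ := (hKB N d F hN0 hd hF).2.2.2.1
  obtain ⟨hGpot, hGrel, B, hB, hGB, -⟩ := hKA N d F hd hF
  have hellPot : Pot (ell : (Fin N → ℂ) → ℝ) := (hL3 N).1
  set b0 : ℝ := (1 / 2) * Real.log (CJ ^ 2 + 1) with hb0
  have hb0' : 0 ≤ b0 := by
    rw [hb0]
    exact mul_nonneg (by norm_num) (Real.log_nonneg (by nlinarith))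
  refine ⟨b0 + 1, by positivity, ?_⟩
  intro i δ η hδ hη
  have hc0 : 0 < mass q (om N p) := ((hD7 N p).2 q hN).1
  set c0 := mass q (om N p) with hc0def
  have hMn : 0 < N * (d - 1) := Nat.mul_pos hN0 (by omega)
  have hMnr : (0 : ℝ) < ((N * (d - 1) : ℕ) : ℝ) := by exact_mod_cast hMn
  -- the bound of the difference
  have hdiff : ∃ n0 : ℕ, i ≤ n0 ∧ ∀ m, n0 ≤ i + m → ∀ S : Form (Fin N) p, ProjForm S →
      mass q S = c0 → ∀ w : (Fin N → ℂ) → ℝ, Pot w →
      ((N * (d - 1) : ℕ) : ℝ) * (d : ℝ) ^ m *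
        (pair (fun z => Gn F d m z - (1 / (d : ℝ) ^ m) * w (ev (iter F m) z))
          (Sn F d (i + m) S) (fun _ : Fin q => ell) -
        pair (fun z => Gn F d m z - (1 / (d : ℝ) ^ m) * w (ev (iter F m) z))
          (Sn F d (i + m) S) (fun _ : Fin q => Gn F d (i + m))) ≤
      η * (δ * (d : ℝ) ^ (i + m)) * c0 := by
    rcases q with _ | q
    · refine ⟨i, le_rfl, fun m _ S _ _ w _ => ?_⟩
      have e : (fun _ : Fin 0 => (ell : (Fin N → ℂ) → ℝ)) = fun _ => Gn F d (i + m) := by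
        funext j
        exact j.elim0
      rw [e, sub_self, mul_zero]
      positivity
    · have hη' : 0 < η * (δ * (d : ℝ) ^ i) * c0 / (((N * (d - 1) : ℕ) : ℝ) * (q + 1)) := by
        positivity
      obtain ⟨m0, hm0⟩ := hKF N d (p + 1) q F hd (by omega) hF hConv _ hη'
      refine ⟨m0 + i, by omega, fun m hm S hS hmass w hw => ?_⟩
      have hm' : m ≥ m0 := by omega
      have hSn : ProjForm (Sn F d (i + m) S) := (hD12 N d F hd1 hF 0 (i + m)).2.2.2.2 p S hS
      have hit := (hD12 N d F hd1 hF 0 m).1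
      have hWPot : Pot (fun z => (1 / (d : ℝ) ^ m) * w (ev (iter F m) z)) := by
        have := (hL3 N).2.2 (d ^ m) (iter F m) _ (Nat.one_le_pow _ _ (by omega)) hit hw
        push_cast at this
        exact this
      have hke := hKE2 N p q (Sn F d (i + m) S) _ _ _ _ (by omega) hSn hWPot (hGpot m)
        (hGpot (i + m)) hellPot
      rw [hke]
      -- absorbing
      let R : ((Fin N → ℂ) → ℝ) → Form (Fin N) (p + 1) :=
        fun v z => wedge (Sn F d i S z) (hessR v z)
      have hgn : Hom0 (fun z => Gn F d (i + m) z - ell z) := by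
        have e1 := (hL1 N 0 0 0 0 (Gn F d (i + m)) (Gn F d (i + m))).2.2.1 (hGpot (i + m))
        have e2 := (hL1 N 0 0 0 0 ell ell).2.2.1 hellPot
        have e3 := (hL1 N 1 1 1 (-1) (Gn F d (i + m)) ell).1 e1 e2
        have e4 : (1 : ℝ) * 1 + -1 * 1 = 0 := by norm_num
        rw [e4] at e3
        have e5 : (fun z => 1 * Gn F d (i + m) z + -1 * ell z) =
            fun z => Gn F d (i + m) z - ell z := by
          funext z; ring
        rw [e5] at e3
        exact (hL1 N 0 0 0 0 _ (ell)).2.1.mpr e3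
      have hmassR : ∀ v, Pot v → ProjForm (R v) ∧ mass q (R v) = mass q (om N (p + 1)) := by
        intro v hv
        have h1 := hKH N d p q m i F S v _ (fun _ : Fin q => ell) hd (by omega) hF hS hv
          (fun _ => hellPot) hgn
        refine ⟨h1.1, ?_⟩
        have h2 : mass q (R v) = mass (q + 1) S := h1.2.1
        rw [h2, hmass, hc0def, ((hD7 N p).2 (q + 1) (by omega)).2,
          ((hD7 N (p + 1)).2 q (by omega)).2]
        have e : p + (q + 1) = p + 1 + q := by omega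
        rw [e]
      have hterm : ∀ j : Fin (q + 1),
          pair (fun z => Gn F d (i + m) z - ell z) (Sn F d (i + m) S)
            (Fin.cons (α := fun _ => (Fin N → ℂ) → ℝ)
              (fun z => (1 / (d : ℝ) ^ m) * w (ev (iter F m) z))
              (fun k : Fin q => if (k : ℕ) < (j : ℕ) then Gn F d (i + m) else ell)) -
          pair (fun z => Gn F d (i + m) z - ell z) (Sn F d (i + m) S)
            (Fin.cons (α := fun _ => (Fin N → ℂ) → ℝ) (Gn F d m)
              (fun k : Fin q => if (k : ℕ) < (j : ℕ) then Gn F d (i + m) else ell)) ≤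
          η * (δ * (d : ℝ) ^ i) * c0 / (((N * (d - 1) : ℕ) : ℝ) * (q + 1)) := by
        intro j
        have hu : ∀ k : Fin q,
            Pot (if (k : ℕ) < (j : ℕ) then Gn F d (i + m) else (ell : (Fin N → ℂ) → ℝ)) := by
          intro k
          split
          · exact hGpot _
          · exact hellPot
        have h1 := (hKH N d p q m i F S w _ (fun k : Fin q =>
          if (k : ℕ) < (j : ℕ) then Gn F d (i + m) else ell) hd (by omega) hF hS hw hu hgn).2.2
        have h2 := (hKH N d p q m i F S ell _ (fun k : Fin q =>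
          if (k : ℕ) < (j : ℕ) then Gn F d (i + m) else ell) hd (by omega) hF hS hellPot hu
          hgn).2.2
        have e : (fun z => (1 / (d : ℝ) ^ m) * ell (ev (iter F m) z)) = Gn F d m := by
          funext z
          rfl
        rw [e] at h2
        rw [h1, h2]
        have h3 := hm0 m hm' (i + m) (by omega) j (R w) (R ell) (hmassR w hw).1
          (hmassR ell hellPot).1 (hmassR w hw).2 (hmassR ell hellPot).2
        exact (abs_le.mp h3).2
      calc ((N * (d - 1) : ℕ) : ℝ) * (d : ℝ) ^ m * _ ≤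
          ((N * (d - 1) : ℕ) : ℝ) * (d : ℝ) ^ m * ∑ _j : Fin (q + 1),
            (η * (δ * (d : ℝ) ^ i) * c0 / (((N * (d - 1) : ℕ) : ℝ) * (q + 1))) := by
            refine mul_le_mul_of_nonneg_left ?_ (by positivity)
            exact Finset.sum_le_sum fun j _ => hterm j
        _ = η * (δ * (d : ℝ) ^ (i + m)) * c0 := by
            rw [Finset.sum_const, Finset.card_univ, Fintype.card_fin, nsmul_eq_mul, pow_add,
              Nat.cast_add, Nat.cast_one]
            have hM0 : ((N * (d - 1) : ℕ) : ℝ) ≠ 0 := hMnr.ne'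
            generalize ((N * (d - 1) : ℕ) : ℝ) = Mr at hM0
            field_simp
  obtain ⟨n0, hin0, hn0⟩ := hdiff
  refine ⟨n0, hin0, ?_⟩
  intro n hn r h S hr hr1 hh hHit hS hmass
  obtain ⟨m, rfl⟩ : ∃ m, n = i + m := ⟨n - i, by omega⟩
  have hcore := core hKB hKA hKI hP1 hP3 hP5 hL1 hL3 hD12 hd hN hF hCJ1 hCJ m i hδ hr hr1 hh
    hHit hS hmass
  set X : ℝ := δ * (d : ℝ) ^ (i + m) with hX
  have hX0 : 0 < X := by positivity
  have hwPot := ((hKB N d F hN0 hd hF).2.2.2.2 (Real.exp (-X)) (Real.exp_pos _)).1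
  have hdif := hn0 m hn S hS hmass _ hwPot
  have hlr : 0 ≤ Real.log (1 / r) := Real.log_nonneg (by
    rw [le_div_iff₀ hr]; linarith)
  set β := beta F d (i + m) i q (Real.exp (-X)) S with hβ
  have h1 : X * β ≤ (X * h + Real.log (1 / r) + b0) * c0 + η * X * c0 :=
    hcore.trans (add_le_add le_rfl hdif)
  have h2 : β ≤ ((X * h + Real.log (1 / r) + b0) * c0 + η * X * c0) / X := by
    rw [le_div_iff₀ hX0]
    linarith
  refine h2.trans ?_
  have h3 : ((X * h + Real.log (1 / r) + b0) * c0 + η * X * c0) / X =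
      (h + η + (Real.log (1 / r) + b0) / X) * c0 := by
    field_simp
    ring
  rw [h3]
  refine mul_le_mul_of_nonneg_right ?_ hc0.le
  have h5 : (Real.log (1 / r) + b0) / X ≤ (2 * Real.log (1 / r) + (b0 + 1)) / X :=
    div_le_div_of_nonneg_right (by linarith) hX0.le
  linarith

end

end Pool.Agent.H88.EQ.KEYrow
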