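import Pool.Agent.H92.EQ.TL

/-!
Rows IE, IF of the board `eqd_modules`.
-/

namespace Pool.Agent.H88.EQ.IErow

open Pool.Agent.H92.EQ
open scoped BigOperators ComplexConjugate ContDiff Topology
open MeasureTheory

noncomputable section

variable {N p : ℕ}

theorem ev_lin (A : Matrix (Fin N) (Fin N) ℂ) (z : Fin N → ℂ) : ev (lin A) z = A.mulVec z := by
  funext i
  simp [ev, lin, Matrix.mulVec, dotProduct]

theorem jac_lin (A : Matrix (Fin N) (Fin N) ℂ) (z : Fin N → ℂ) : jac (lin A) z = A := by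
  funext i a
  simp only [jac, lin, map_sum, Derivation.leibniz, MvPolynomial.pderiv_C, smul_zero, add_zero,
    MvPolynomial.pderiv_X, smul_eq_mul, map_mul, MvPolynomial.eval_C]
  rw [Finset.sum_eq_single a]
  · simp
  · intro b _ hb
    simp [Pi.single_eq_of_ne hb]
  · intro h
    exact absurd (Finset.mem_univ a) h

theorem nsq_eq (z : Fin N → ℂ) : ((nsq z : ℝ) : ℂ) = ∑ a, conj (z a) * z a := by
  unfold nsq
  push_cast
  refine Finset.sum_congr rfl fun a _ => ?_
  rw [mul_comm, Complex.mul_conj, Complex.normSq_eq_norm_sq]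
  push_cast
  rfl

theorem nsq_pos {z : Fin N → ℂ} (hz : z ≠ 0) : 0 < nsq z := by
  obtain ⟨a, ha⟩ := Function.ne_iff.mp hz
  unfold nsq
  exact Finset.sum_pos' (fun i _ => by positivity) ⟨a, Finset.mem_univ a, by
    have : 0 < ‖z a‖ := norm_pos_iff.mpr ha
    positivity⟩

theorem nsq_unitary {U : Matrix (Fin N) (Fin N) ℂ} (hU : U * U.conjTranspose = 1)
    (z : Fin N → ℂ) : nsq (U.mulVec z) = nsq z := by
  have hU' : U.conjTranspose * U = 1 := mul_eq_one_comm.mp hU
  have h1 : ∀ v : Fin N → ℂ, ((nsq v : ℝ) : ℂ) = star v ⬝ᵥ v := fun v => nsq_eq v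
  have h2 : ((nsq (U.mulVec z) : ℝ) : ℂ) = ((nsq z : ℝ) : ℂ) := by
    rw [h1, h1, Matrix.star_mulVec, Matrix.dotProduct_mulVec, Matrix.vecMul_vecMul, hU',
      Matrix.vecMul_one]
  exact_mod_cast h2

theorem ell_unitary {U : Matrix (Fin N) (Fin N) ℂ} (hU : U * U.conjTranspose = 1)
    (z : Fin N → ℂ) : ell (U.mulVec z) = ell z := by
  unfold ell
  rw [nsq_unitary hU]

/-- Transitivity of the unitary group. -/
theorem exists_unitary {v w : Fin N → ℂ} (hv : v ≠ 0) (hw : w ≠ 0) :
    ∃ (U : Matrix (Fin N) (Fin N) ℂ) (c : ℂ), U * U.conjTranspose = 1 ∧ c ≠ 0 ∧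
      U.mulVec v = c • w := by
  have hnv := nsq_pos hv
  have hnw := nsq_pos hw
  -- the scalar
  obtain ⟨c, hc0, hcn, hcr⟩ : ∃ c : ℂ, c ≠ 0 ∧ ‖c‖ ^ 2 * nsq w = nsq v ∧
      ∃ t : ℝ, star v ⬝ᵥ (c • w) = (t : ℂ) := by
    let s : ℂ := star v ⬝ᵥ w
    let ρ : ℝ := Real.sqrt (nsq v / nsq w)
    have hρ : 0 < ρ := Real.sqrt_pos.mpr (div_pos hnv hnw)
    have hρ2 : ρ ^ 2 * nsq w = nsq v := by
      rw [Real.sq_sqrt (div_pos hnv hnw).le]
      field_simp
    by_cases hs : s = 0
    · refine ⟨(ρ : ℂ), by exact_mod_cast hρ.ne', ?_, 0, ?_⟩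
      · rw [Complex.norm_real, Real.norm_of_nonneg hρ.le, hρ2]
      · rw [dotProduct_smul]
        show (ρ : ℂ) • s = _
        rw [hs, smul_zero]
        simp
    · have hsn : ‖s‖ ≠ 0 := norm_ne_zero_iff.mpr hs
      refine ⟨(ρ : ℂ) * (conj s / ‖s‖), ?_, ?_, ρ * ‖s‖, ?_⟩
      · refine mul_ne_zero (by exact_mod_cast hρ.ne') (div_ne_zero ?_ (by exact_mod_cast hsn))
        exact (map_ne_zero (starRingEnd ℂ)).mpr hs
      · rw [norm_mul, norm_div, Complex.norm_real, Complex.norm_real, norm_norm,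
          RCLike.norm_conj, div_self hsn, mul_one, Real.norm_of_nonneg hρ.le, hρ2]
      · rw [dotProduct_smul]
        show ((ρ : ℂ) * (conj s / ‖s‖)) • s = _
        have h1 : conj s * s = ((‖s‖ : ℝ) : ℂ) ^ 2 := by
          rw [mul_comm, Complex.mul_conj, Complex.normSq_eq_norm_sq]
          push_cast
          rfl
        have hsn' : ((‖s‖ : ℝ) : ℂ) ≠ 0 := by exact_mod_cast hsn
        rw [smul_eq_mul]
        calc (ρ : ℂ) * (conj s / ‖s‖) * s = (ρ : ℂ) * ((conj s * s) / ‖s‖) := by ring
          _ = _ := by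
            rw [h1]
            push_cast
            field_simp
  let x : Fin N → ℂ := c • w
  have hx : nsq x = nsq v := by
    rw [← hcn]
    unfold nsq
    rw [Finset.mul_sum]
    refine Finset.sum_congr rfl fun a _ => ?_
    simp only [x, Pi.smul_apply, smul_eq_mul, norm_mul, mul_pow]
  obtain ⟨t, ht⟩ := hcr
  have ht' : star x ⬝ᵥ v = (t : ℂ) := by
    have h1 : star x ⬝ᵥ v = star (star v ⬝ᵥ x) := by
      rw [Matrix.star_dotProduct]
    rw [h1]
    show star (star v ⬝ᵥ (c • w)) = _
    rw [ht]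
    simp
  by_cases hvx : v = x
  · exact ⟨1, c, by simp, hc0, by rw [Matrix.one_mulVec]; exact hvx⟩
  let a : Fin N → ℂ := v - x
  have ha : a ≠ 0 := sub_ne_zero.mpr hvx
  have hna := nsq_pos ha
  have hnac : ((nsq a : ℝ) : ℂ) ≠ 0 := by exact_mod_cast hna.ne'
  have hvv : star v ⬝ᵥ v = ((nsq v : ℝ) : ℂ) := (nsq_eq v).symm
  have hxx : star x ⬝ᵥ x = ((nsq v : ℝ) : ℂ) := by
    rw [← hx]
    exact (nsq_eq x).symm
  have haa : star a ⬝ᵥ a = ((nsq a : ℝ) : ℂ) := (nsq_eq a).symm
  have hna2 : ((nsq a : ℝ) : ℂ) = 2 * (((nsq v : ℝ) : ℂ) - (t : ℂ)) := by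
    rw [← haa]
    simp only [a, star_sub, sub_dotProduct, dotProduct_sub]
    rw [hvv, hxx, ht']
    have : star v ⬝ᵥ x = (t : ℂ) := ht
    rw [this]
    ring
  have hav : star a ⬝ᵥ v = ((nsq v : ℝ) : ℂ) - (t : ℂ) := by
    simp only [a, star_sub, sub_dotProduct]
    rw [hvv, ht']
  let P : Matrix (Fin N) (Fin N) ℂ := Matrix.vecMulVec a (star a)
  have hPP : P * P = ((nsq a : ℝ) : ℂ) • P := by
    simp only [P]
    rw [Matrix.vecMulVec_mul_vecMulVec, haa]
    funext i j
    simp only [Matrix.vecMulVec_apply, Matrix.smul_apply, Pi.smul_apply, smul_eq_mul]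
    ring
  have hPh : P.conjTranspose = P := by
    funext i j
    simp only [P, Matrix.conjTranspose_apply, Matrix.vecMulVec_apply, Pi.star_apply, star_mul',
      star_star]
    ring
  let γ : ℂ := 2 / ((nsq a : ℝ) : ℂ)
  have hγ : star γ = γ := by
    simp only [γ, star_div₀]
    simp
  refine ⟨1 - γ • P, c, ?_, hc0, ?_⟩
  · rw [Matrix.conjTranspose_sub, Matrix.conjTranspose_smul, hPh, hγ, Matrix.conjTranspose_one,
      sub_mul, mul_sub, mul_sub, one_mul, one_mul, mul_one, Matrix.smul_mul, Matrix.mul_smul, hPP]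
    have h1 : γ • γ • ((nsq a : ℝ) : ℂ) • P = γ • P + γ • P := by
      rw [smul_smul, smul_smul, ← add_smul]
      congr 1
      simp only [γ]
      field_simp
      ring
    rw [h1]
    abel
  · rw [Matrix.sub_mulVec, Matrix.one_mulVec, Matrix.smul_mulVec]
    have h1 : P.mulVec v = (star a ⬝ᵥ v) • a := by
      funext i
      simp only [P, Matrix.mulVec, dotProduct, Matrix.vecMulVec_apply, Pi.smul_apply,
        smul_eq_mul, Finset.sum_mul]
      refine Finset.sum_congr rfl fun j _ => ?_
      ring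
    rw [h1, hav, smul_smul]
    have h2 : γ * (((nsq v : ℝ) : ℂ) - (t : ℂ)) = 1 := by
      have h3 : ((nsq v : ℝ) : ℂ) - (t : ℂ) = ((nsq a : ℝ) : ℂ) / 2 := by
        rw [hna2]; ring
      rw [h3]
      simp only [γ]
      field_simp
    rw [h2, one_smul]
    simp only [a, x]
    rw [sub_sub_cancel]

theorem pull_lin_apply (U : Matrix (Fin N) (Fin N) ℂ) (S : Form (Fin N) p) (y : Fin N → ℂ)
    (I J : Fin p → Fin N) :
    pull (lin U) S y I J = ∑ I' : Fin p → Fin N, ∑ J' : Fin p → Fin N,
      S (U.mulVec y) I' J' * (∏ l, U (I' l) (I l)) * ∏ l, conj (U (J' l) (J l)) := by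
  unfold pull
  rw [jac_lin, ev_lin]

theorem om_invariant (hD9 : T_D9) (hW9 : T_W9) (N : ℕ) (U : Matrix (Fin N) (Fin N) ℂ)
    (hU : U * U.conjTranspose = 1) (y : Fin N → ℂ) (hy : y ≠ 0) :
    ∀ p : ℕ, pull (lin U) (om N p) y = om N p y := by
  have hUy : ev (lin U) y ≠ 0 := by
    intro h
    have h1 := nsq_unitary hU y
    rw [← ev_lin, h] at h1
    have h2 := nsq_pos hy
    rw [← h1] at h2
    simp [nsq] at h2
  have hell : ContDiffAt ℝ 2 (fun y : Fin N → ℂ => ((ell y : ℝ) : ℂ)) (ev (lin U) y) := by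
    have h1 : ContDiffAt ℝ ∞ (ell : (Fin N → ℂ) → ℝ) (ev (lin U) y) :=
      ((hW9 (Fin N)).1 (ev (lin U) y) hUy).contDiffAt (isOpen_compl_singleton.mem_nhds hUy)
    exact (Complex.ofRealCLM.contDiff.contDiffAt.comp (ev (lin U) y) h1).of_le
      (WithTop.coe_le_coe.mpr (le_top : (2 : ℕ∞) ≤ ⊤))
  intro p
  induction p with
  | zero =>
    funext I J
    simp [pull, om]
  | succ p ih =>
    have h9 := hD9 (Fin N) (Fin N) p (lin U) (om N p) (fun y => ((ell y : ℝ) : ℂ)) y hell
    have h1 : (fun w => ((ell (ev (lin U) w) : ℝ) : ℂ)) = fun w : Fin N → ℂ => ((ell w : ℝ) : ℂ) := by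
      funext w
      rw [ev_lin, ell_unitary hU]
    rw [h1, ih] at h9
    exact h9

theorem pf_IE (hD7 : T_D7) (hD9 : T_D9) (hW9 : T_W9) : T_IE := by
  intro N p hp y hy
  refine ⟨?_, fun U hU => om_invariant hD9 hW9 N U hU y hy p⟩
  intro h0
  obtain ⟨q, hq⟩ : ∃ q, p + q + 1 = N := ⟨N - 1 - p, by omega⟩
  have hproj : ProjForm (om N p) := (hD7 N p).1
  -- it vanishes everywhere
  have hall : ∀ z, z ≠ 0 → om N p z = 0 := by
    intro z hz
    obtain ⟨U, c, hU, hc, hUz⟩ := exists_unitary hz hy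
    rw [← om_invariant hD9 hW9 N U hU z hz p]
    funext I J
    rw [pull_lin_apply, hUz]
    have h1 : ∀ I' J', om N p (c • y) I' J' = 0 := by
      intro I' J'
      rw [hproj.homog c y hc hy, h0]
      simp
    simp [h1]
  have hmass := ((hD7 N p).2 q hq).1
  have hzero : mass q (om N p) = 0 := by
    unfold mass pair Iint
    have hN : 0 < N := by omega
    obtain ⟨k, rfl⟩ : ∃ k, N = k + 1 := ⟨N - 1, by omega⟩
    have hae : ∀ᵐ z : Fin (k + 1) → ℂ, z ≠ 0 := by
      rw [ae_iff]
      simp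
    have h2 : ∀ᵐ z ∂(volume.restrict {z : Fin (k + 1) → ℂ | 0 ≤ ell z ∧ ell z < 1}),
        (fun z => (1 : ℝ) * Q (om (k + 1) p) (fun _ : Fin q => ell) z) z = 0 := by
      refine ae_restrict_of_ae ?_
      filter_upwards [hae] with z hz
      simp only [Q, hall z hz, one_mul]
      simp [mixD]
    rw [integral_congr_ae h2]
    simp
  linarith

/-- The values at `e_k` of an invariant form are `SymK`. -/
theorem symK_of {T : Form (Fin N) p} (k : Fin N)
    (hkilL : KilL (Pi.single k 1) (T (Pi.single k 1)))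
    (hkilR : KilR (Pi.single k 1) (T (Pi.single k 1)))
    (haltL : ∀ (π : Equiv.Perm (Fin p)) I J, T (Pi.single k 1) (I ∘ π) J =
      ((Equiv.Perm.sign π : ℤ) : ℂ) * T (Pi.single k 1) I J)
    (haltR : ∀ (π : Equiv.Perm (Fin p)) I J, T (Pi.single k 1) I (J ∘ π) =
      ((Equiv.Perm.sign π : ℤ) : ℂ) * T (Pi.single k 1) I J)
    (hhom : ∀ l : ℂ, ‖l‖ = 1 → ∀ I J, T (l • Pi.single k 1) I J = T (Pi.single k 1) I J)
    (hinv : ∀ U : Matrix (Fin N) (Fin N) ℂ, U * U.conjTranspose = 1 →
      pull (lin U) T (Pi.single k 1) = T (Pi.single k 1)) :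
    SymK k (T (Pi.single k 1)) := by
  refine ⟨haltL, haltR, ?_, ?_, ?_⟩
  · rintro I J (⟨l, hl⟩ | ⟨l, hl⟩)
    · have h1 := hkilL I J l
      rw [Finset.sum_eq_single k] at h1
      · rw [Pi.single_eq_same, one_mul] at h1
        have e : Function.update I l k = I := by rw [← hl]; exact Function.update_eq_self l I
        rwa [e] at h1
      · intro b _ hb
        rw [Pi.single_eq_of_ne hb, zero_mul]
      · intro h
        exact absurd (Finset.mem_univ k) h
    · have h1 := hkilR I J l
      rw [Finset.sum_eq_single k] at h1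
      · rw [Pi.single_eq_same, map_one, one_mul] at h1
        have e : Function.update J l k = J := by rw [← hl]; exact Function.update_eq_self l J
        rwa [e] at h1
      · intro b _ hb
        rw [Pi.single_eq_of_ne hb, map_zero, zero_mul]
      · intro h
        exact absurd (Finset.mem_univ k) h
  · intro v hv I J
    let U : Matrix (Fin N) (Fin N) ℂ := Matrix.diagonal v
    have hU : U * U.conjTranspose = 1 := by
      simp only [U]
      rw [Matrix.diagonal_conjTranspose, Matrix.diagonal_mul_diagonal, ← Matrix.diagonal_one]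
      congr 1
      funext i
      simp only [Pi.star_apply]
      have : v i * star (v i) = ((‖v i‖ ^ 2 : ℝ) : ℂ) := by
        have := Complex.mul_conj (v i)
        rw [Complex.normSq_eq_norm_sq] at this
        exact this
      rw [this, hv i]
      simp
    have h1 := congrFun (congrFun (hinv U hU) I) J
    rw [pull_lin_apply] at h1
    have hUe : U.mulVec (Pi.single k 1) = v k • (Pi.single k 1 : Fin N → ℂ) := by
      funext i
      simp only [U, Matrix.mulVec_diagonal, Pi.smul_apply, smul_eq_mul]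
      by_cases hi : i = k
      · subst hi; rfl
      · rw [Pi.single_eq_of_ne hi, mul_zero, mul_zero]
    rw [hUe, Finset.sum_eq_single I, Finset.sum_eq_single J] at h1
    · rw [hhom (v k) (hv k)] at h1
      have e1 : ∀ l, U (I l) (I l) = v (I l) := fun l => Matrix.diagonal_apply_eq _ _
      have e2 : ∀ l, U (J l) (J l) = v (J l) := fun l => Matrix.diagonal_apply_eq _ _
      simp only [e1, e2] at h1
      exact h1
    · intro J' _ hJ'
      obtain ⟨l, hl⟩ := Function.ne_iff.mp hJ'
      have : ∏ l, conj (U (J' l) (J l)) = 0 := by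
        refine Finset.prod_eq_zero (Finset.mem_univ l) ?_
        simp only [U]
        rw [Matrix.diagonal_apply_ne _ hl, map_zero]
      rw [this, mul_zero]
    · intro h
      exact absurd (Finset.mem_univ J) h
    · intro I' _ hI'
      obtain ⟨l, hl⟩ := Function.ne_iff.mp hI'
      have : ∏ l, U (I' l) (I l) = 0 := by
        refine Finset.prod_eq_zero (Finset.mem_univ l) ?_
        simp only [U]
        rw [Matrix.diagonal_apply_ne _ hl]
      refine Finset.sum_eq_zero fun J' _ => ?_
      rw [this, mul_zero, zero_mul]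
    · intro h
      exact absurd (Finset.mem_univ I) h
  · intro τ hτ I J
    let U : Matrix (Fin N) (Fin N) ℂ := Matrix.of fun i j => if i = τ j then 1 else 0
    have hUa : ∀ i j, U i j = if i = τ j then 1 else 0 := fun i j => rfl
    have hU : U * U.conjTranspose = 1 := by
      funext i j
      rw [Matrix.mul_apply, Finset.sum_eq_single (τ.symm i)]
      · simp only [Matrix.conjTranspose_apply, hUa, Equiv.apply_symm_apply, Matrix.one_apply]
        by_cases hij : i = j
        · subst hij; simp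
        · have hij' : ¬ j = i := fun h => hij h.symm
          simp [hij, hij']
      · intro b _ hb
        have : ¬ i = τ b := fun h => hb (by rw [h]; simp)
        rw [hUa, if_neg this, zero_mul]
      · intro h
        exact absurd (Finset.mem_univ _) h
    have h1 := congrFun (congrFun (hinv U hU) I) J
    rw [pull_lin_apply] at h1
    have hUe : U.mulVec (Pi.single k 1) = (Pi.single k 1 : Fin N → ℂ) := by
      funext i
      rw [Matrix.mulVec_single]
      simp only [MulOpposite.op_one, one_smul, Matrix.col_apply, hUa, hτ, Pi.single_apply]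
    rw [hUe, Finset.sum_eq_single (fun l => τ (I l)),
      Finset.sum_eq_single (fun l => τ (J l))] at h1
    · simpa [hUa] using h1
    · intro J' _ hJ'
      obtain ⟨l, hl⟩ := Function.ne_iff.mp hJ'
      have : ∏ l, conj (U (J' l) (J l)) = 0 := by
        refine Finset.prod_eq_zero (Finset.mem_univ l) ?_
        rw [hUa, if_neg hl, map_zero]
      rw [this, mul_zero]
    · intro h
      exact absurd (Finset.mem_univ _) h
    · intro I' _ hI'
      obtain ⟨l, hl⟩ := Function.ne_iff.mp hI'
      have : ∏ l, U (I' l) (I l) = 0 := by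
        refine Finset.prod_eq_zero (Finset.mem_univ l) ?_
        rw [hUa, if_neg hl]
      refine Finset.sum_eq_zero fun J' _ => ?_
      rw [this, mul_zero, zero_mul]
    · intro h
      exact absurd (Finset.mem_univ _) h

theorem pf_IF (hIB : T_IB) (hIC : T_IC) (hID : T_ID) (hIE : T_IE) (hD7 : T_D7) : T_IF := by
  intro N p S hp hS
  have hN : 0 < N := by omega
  let k : Fin N := ⟨0, hN⟩
  let e : Fin N → ℂ := Pi.single k 1
  have he : e ≠ 0 := by
    intro h
    have := congrFun h k
    simp [e] at this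
  have hproj : ProjForm (om N p) := (hD7 N p).1
  obtain ⟨hc1, hc2, hc3, hc4⟩ := hIC N p S hp hS e he
  have hW : SymK k (av S e) := by
    refine symK_of k hc1 hc2 (fun π I J => (hc3 π I J).1) (fun π I J => (hc3 π I J).2) ?_ ?_
    · intro l hl I J
      have hl0 : l ≠ 0 := by
        rintro rfl
        simp at hl
      have := hc4 l I J hl0
      rw [hl] at this
      simpa using this
    · intro U hU
      exact hIB N p S U hp hS hU e he
  have hW' : SymK k (om N p e) := by
    refine symK_of k (fun I J j => hproj.basicL e he I J j) (fun I J j => hproj.basicR e he I J j)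
      (fun π I J => hproj.cp.altL e he π I J) (fun π I J => hproj.cp.altR e he π I J) ?_ ?_
    · intro l hl I J
      have hl0 : l ≠ 0 := by
        rintro rfl
        simp at hl
      have := hproj.homog l e hl0 he I J
      rw [hl] at this
      simpa using this
    · intro U hU
      exact (hIE N p hp e he).2 U hU
  obtain ⟨c, hc⟩ := hID N p k (av S e) (om N p e) hW hW' (hIE N p hp e he).1
  refine ⟨c, fun y hy I J => ?_⟩
  obtain ⟨U, b, hU, hb, hUy⟩ := exists_unitary hy he
  have h1 := congrFun (congrFun (hIB N p S U hp hS hU y hy) I) J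
  have h2 := congrFun (congrFun ((hIE N p hp y hy).2 U hU) I) J
  rw [← h1, ← h2, pull_lin_apply, pull_lin_apply, hUy, Finset.mul_sum]
  refine Finset.sum_congr rfl fun I' _ => ?_
  rw [Finset.mul_sum]
  refine Finset.sum_congr rfl fun J' _ => ?_
  rw [hc4 b I' J' hb, hproj.homog b e hb he I' J', hc I' J']
  ring

end

end Pool.Agent.H88.EQ.IErow
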