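import Pool.Agent.H92.EQ.TL

/-!
Row LD of the board `eqd_modules`.
-/

namespace Pool.Agent.H88.EQ.LDrow

open Pool.Agent.H92.EQ
open scoped BigOperators ComplexConjugate ContDiff Topology Nat
open MeasureTheory

noncomputable section

variable {N : ℕ}

theorem norm_mulVec_le {X : Matrix (Fin N) (Fin N) ℂ} {τ : ℝ} (hτ : 0 ≤ τ)
    (h : ∀ i j, ‖X i j‖ ≤ τ) (v : Fin N → ℂ) : ‖X.mulVec v‖ ≤ N * τ * ‖v‖ := by
  rw [pi_norm_le_iff_of_nonneg (by positivity)]
  intro i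
  calc ‖X.mulVec v i‖ = ‖∑ j, X i j * v j‖ := rfl
    _ ≤ ∑ j, ‖X i j * v j‖ := norm_sum_le _ _
    _ ≤ ∑ _j : Fin N, τ * ‖v‖ := by
        refine Finset.sum_le_sum fun j _ => ?_
        rw [norm_mul]
        exact mul_le_mul (h i j) (norm_le_pi_norm v j) (norm_nonneg _) hτ
    _ = N * τ * ‖v‖ := by
        rw [Finset.sum_const, Finset.card_univ, Fintype.card_fin, nsmul_eq_mul]
        ring

theorem nrm_le (v : Fin N → ℂ) : nrm v ≤ N * ‖v‖ := by
  unfold nrm nsq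
  rw [Real.sqrt_le_left (by positivity)]
  calc ∑ i, ‖v i‖ ^ 2 ≤ ∑ _i : Fin N, ‖v‖ ^ 2 := by
        refine Finset.sum_le_sum fun i _ => ?_
        exact pow_le_pow_left₀ (norm_nonneg _) (norm_le_pi_norm v i) 2
    _ = N * ‖v‖ ^ 2 := by
        rw [Finset.sum_const, Finset.card_univ, Fintype.card_fin, nsmul_eq_mul]
    _ ≤ (N * ‖v‖) ^ 2 := by
        rw [mul_pow]
        refine mul_le_mul_of_nonneg_right ?_ (by positivity)
        rcases N with _ | n
        · simp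
        · have : (1 : ℝ) ≤ ((n + 1 : ℕ) : ℝ) := by exact_mod_cast Nat.succ_le_succ (Nat.zero_le n)
          nlinarith

theorem le_nrm (v : Fin N → ℂ) : ‖v‖ ≤ nrm v := by
  have h0 : 0 ≤ nrm v := Real.sqrt_nonneg _
  rw [pi_norm_le_iff_of_nonneg h0]
  intro i
  unfold nrm nsq
  refine Real.le_sqrt_of_sq_le ?_
  exact Finset.single_le_sum (f := fun i => ‖v i‖ ^ 2) (fun j _ => by positivity)
    (Finset.mem_univ i)

theorem nrm_pos {v : Fin N → ℂ} (hv : v ≠ 0) : 0 < nrm v :=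
  lt_of_lt_of_le (norm_pos_iff.mpr hv) (le_nrm v)

theorem adj_le {P : Matrix (Fin N) (Fin N) ℂ} {M : ℝ} (hM : 1 ≤ M) (h : ∀ i j, ‖P i j‖ ≤ M)
    (i j : Fin N) : ‖P.adjugate i j‖ ≤ N ! * M ^ N := by
  rw [Matrix.adjugate_apply]
  have h1 := Matrix.det_le (A := P.updateRow j (Pi.single i 1))
    (abv := (IsAbsoluteValue.toAbsoluteValue (norm : ℂ → ℝ))) (x := M) (fun a b => by
      show ‖P.updateRow j (Pi.single i 1) a b‖ ≤ M
      by_cases ha : a = j
      · subst ha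
        rw [Matrix.updateRow_self]
        by_cases hb : b = i
        · subst hb
          rw [Pi.single_eq_same, norm_one]
          exact hM
        · rw [Pi.single_eq_of_ne hb, norm_zero]
          linarith
      · rw [Matrix.updateRow_ne ha]
        exact h a b)
  rw [Fintype.card_fin, nsmul_eq_mul] at h1
  exact h1

theorem pf_LD : T_LD := by
  intro N
  refine ⟨2 * N ^ 3 * N ! + 1, by positivity, ?_⟩
  intro P A y M ρ τ s hM hρ hρ1 hτ hτ1 hs hs1 hy hA hP hdet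
  have hN : 0 < N := by
    rcases N with _ | n
    · exact absurd (Subsingleton.elim y 0) hy
    · exact Nat.succ_pos n
  have hNr : (0 : ℝ) < N := by exact_mod_cast hN
  let X : Matrix (Fin N) (Fin N) ℂ := A - 1
  have hX : ∀ i j, ‖X i j‖ ≤ τ := hA
  let B : Matrix (Fin N) (Fin N) ℂ := 1 + (s : ℂ) • X
  have hNτ : N * τ ≤ 1 / 2 := by
    calc (N : ℝ) * τ ≤ N * (1 / (2 * N)) := mul_le_mul_of_nonneg_left hτ1 hNr.le
      _ = 1 / 2 := by field_simp
  have hlow : ∀ v : Fin N → ℂ, ‖v‖ / 2 ≤ ‖B.mulVec v‖ := by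
    intro v
    have h1 : B.mulVec v = v + (s : ℂ) • X.mulVec v := by
      simp only [B, Matrix.add_mulVec, Matrix.one_mulVec, Matrix.smul_mulVec]
    have h2 : ‖(s : ℂ) • X.mulVec v‖ ≤ ‖v‖ / 2 := by
      rw [norm_smul, Complex.norm_real, Real.norm_of_nonneg hs]
      calc s * ‖X.mulVec v‖ ≤ 1 * (N * τ * ‖v‖) :=
            mul_le_mul hs1 (norm_mulVec_le hτ hX v) (norm_nonneg _) zero_le_one
        _ ≤ 1 * (1 / 2 * ‖v‖) := by
            refine mul_le_mul_of_nonneg_left ?_ zero_le_one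
            exact mul_le_mul_of_nonneg_right hNτ (norm_nonneg _)
        _ = ‖v‖ / 2 := by ring
    rw [h1]
    have h3 : ‖v‖ - ‖(s : ℂ) • X.mulVec v‖ ≤ ‖v + (s : ℂ) • X.mulVec v‖ :=
      norm_sub_le_norm_add _ _
    linarith
  have hBdet : B.det ≠ 0 := by
    intro h0
    obtain ⟨v, hv, hv0⟩ := Matrix.exists_mulVec_eq_zero_iff.mpr h0
    have h1 := hlow v
    rw [hv0, norm_zero] at h1
    have h2 : 0 < ‖v‖ := norm_pos_iff.mpr hv
    linarith
  refine ⟨hBdet, ?_⟩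
  have hyn : 0 < nrm y := nrm_pos hy
  -- the scaled matrix
  let P' : Matrix (Fin N) (Fin N) ℂ := ((nrm y : ℝ) : ℂ)⁻¹ • P
  have hyc : ((nrm y : ℝ) : ℂ) ≠ 0 := by exact_mod_cast hyn.ne'
  have hPP' : P = ((nrm y : ℝ) : ℂ) • P' := by
    simp only [P', smul_smul, mul_inv_cancel₀ hyc, one_smul]
  have hP' : ∀ i j, ‖P' i j‖ ≤ M := by
    intro i j
    simp only [P', Matrix.smul_apply, smul_eq_mul, norm_mul, norm_inv, Complex.norm_real,
      Real.norm_of_nonneg hyn.le]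
    rw [inv_mul_le_iff₀ hyn]
    calc ‖P i j‖ ≤ M * nrm y := hP i j
      _ = nrm y * M := mul_comm _ _
  have hdet' : ρ ≤ ‖P'.det‖ := by
    simp only [P']
    rw [Matrix.det_smul, Fintype.card_fin, norm_mul, norm_pow, norm_inv, Complex.norm_real,
      Real.norm_of_nonneg hyn.le, inv_pow, le_inv_mul_iff₀ (by positivity)]
    calc nrm y ^ N * ρ = ρ * nrm y ^ N := mul_comm _ _
      _ ≤ ‖P.det‖ := hdet
  have hdet0 : P'.det ≠ 0 := by
    intro h0
    rw [h0, norm_zero] at hdet'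
    linarith
  let r : Fin N → ℂ := X.mulVec y
  let w : Fin N → ℂ := B⁻¹.mulVec r
  have hBu : IsUnit B.det := isUnit_iff_ne_zero.mpr hBdet
  have hPu : IsUnit P'.det := isUnit_iff_ne_zero.mpr hdet0
  have hw : B.mulVec w = r := by
    simp only [w]
    rw [Matrix.mulVec_mulVec, Matrix.mul_nonsing_inv B hBu, Matrix.one_mulVec]
  have hwn : ‖w‖ ≤ 2 * (N * τ * ‖y‖) := by
    have h1 := hlow w
    rw [hw] at h1
    have h2 : ‖r‖ ≤ N * τ * ‖y‖ := norm_mulVec_le hτ hX y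
    linarith
  let η : Fin N → ℂ := P'⁻¹.mulVec w
  let ξ : Fin N → ℂ := ((nrm y : ℝ) : ℂ)⁻¹ • η
  have hη : P'.mulVec η = w := by
    simp only [η]
    rw [Matrix.mulVec_mulVec, Matrix.mul_nonsing_inv P' hPu, Matrix.one_mulVec]
  have hηn : ‖η‖ ≤ N * (N ! * M ^ N / ρ) * ‖w‖ := by
    refine norm_mulVec_le (by positivity) (fun i j => ?_) w
    rw [Matrix.inv_def, Ring.inverse_eq_inv', Matrix.smul_apply, smul_eq_mul, norm_mul, norm_inv]
    calc ‖P'.det‖⁻¹ * ‖P'.adjugate i j‖ ≤ ρ⁻¹ * (N ! * M ^ N) := by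
          refine mul_le_mul (inv_anti₀ hρ hdet') (adj_le hM hP' i j) (norm_nonneg _)
            (by positivity)
      _ = N ! * M ^ N / ρ := by ring
  refine ⟨ξ, ?_, ?_⟩
  · have h1 : P.mulVec ξ = w := by
      rw [hPP']
      simp only [ξ]
      rw [Matrix.smul_mulVec, Matrix.mulVec_smul, smul_smul, mul_inv_cancel₀ hyc, one_smul, hη]
    rw [← Matrix.mulVec_mulVec, h1]
    exact hw
  · have hξn : ‖ξ‖ = (nrm y)⁻¹ * ‖η‖ := by
      simp only [ξ]
      rw [norm_smul, norm_inv, Complex.norm_real, Real.norm_of_nonneg hyn.le]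
    have hc : 0 ≤ (N : ℝ) * (N ! * M ^ N / ρ) := by positivity
    have hyy : (nrm y)⁻¹ * ‖y‖ ≤ 1 := by
      rw [inv_mul_le_iff₀ hyn, mul_one]
      exact le_nrm y
    calc nrm ξ ≤ N * ‖ξ‖ := nrm_le ξ
      _ = N * ((nrm y)⁻¹ * ‖η‖) := by rw [hξn]
      _ ≤ N * ((nrm y)⁻¹ * (N * (N ! * M ^ N / ρ) * (2 * (N * τ * ‖y‖)))) := by
          refine mul_le_mul_of_nonneg_left ?_ hNr.le
          refine mul_le_mul_of_nonneg_left ?_ (by positivity)
          exact hηn.trans (mul_le_mul_of_nonneg_left hwn hc)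
      _ = (2 * N ^ 3 * N !) * (M ^ N / ρ * τ) * ((nrm y)⁻¹ * ‖y‖) := by ring
      _ ≤ (2 * N ^ 3 * N !) * (M ^ N / ρ * τ) * 1 := by
          refine mul_le_mul_of_nonneg_left hyy ?_
          have : 0 ≤ M := by linarith
          positivity
      _ ≤ (2 * N ^ 3 * N ! + 1) * (M ^ N / ρ * τ) := by
          rw [mul_one]
          refine mul_le_mul_of_nonneg_right (by linarith) ?_
          have : 0 ≤ M := by linarith
          positivity
      _ = (2 * N ^ 3 * N ! + 1) * M ^ N / ρ * τ := by ring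

end

end Pool.Agent.H88.EQ.LDrow
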