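import Pool.Agent.H92.EQ.TL

/-!
Row LA of the board `eqd_modules`.
-/

namespace Pool.Agent.H88.EQ.LArow

open Pool.Agent.H92.EQ
open scoped BigOperators ComplexConjugate ContDiff Topology
open MeasureTheory

noncomputable section

variable {N p : ℕ}

/-- `tl` as a continuous linear map. -/
def tlL (N : ℕ) : (Fin (N + 1) → ℂ) →L[ℝ] (Fin N → ℂ) :=
  ContinuousLinearMap.pi fun i => ContinuousLinearMap.proj i.succ

theorem tlL_apply (z : Fin (N + 1) → ℂ) : tlL N z = tl z := rfl

theorem ct_tl (z : Fin (N + 1) → ℂ) : ct (z 0) (tl z) = z := by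
  funext i
  refine Fin.cases ?_ (fun j => ?_) i
  · rfl
  · rfl

theorem tl_ct (t : ℂ) (x : Fin N → ℂ) : tl (ct t x) = x := by
  funext i
  rfl

theorem ct_differentiable (t : ℂ) : Differentiable ℝ fun x : Fin N → ℂ => ct t x := by
  rw [differentiable_pi]
  intro i
  refine Fin.cases ?_ (fun j => ?_) i
  · exact differentiable_const _
  · exact differentiable_apply j

theorem fderiv_tl (f : (Fin N → ℂ) → ℂ) (z : Fin (N + 1) → ℂ) :
    fderiv ℝ (fun w => f (tl w)) z = (fderiv ℝ f (tl z)).comp (tlL N) := by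
  by_cases h : DifferentiableAt ℝ f (tl z)
  · have h1 : HasFDerivAt (fun w => f (tl w)) ((fderiv ℝ f (tl z)).comp (tlL N)) z :=
      HasFDerivAt.comp z (f := tl) h.hasFDerivAt (tlL N).hasFDerivAt
    exact h1.fderiv
  · have h2 : ¬ DifferentiableAt ℝ (fun w => f (tl w)) z := by
      intro h3
      apply h
      have h4 : DifferentiableAt ℝ ((fun w => f (tl w)) ∘ fun x => ct (z 0) x) (tl z) := by
        refine DifferentiableAt.comp (tl z) ?_ ((ct_differentiable (z 0)) (tl z))
        rw [ct_tl]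
        exact h3
      have h5 : ((fun w => f (tl w)) ∘ fun x => ct (z 0) x) = f := by
        funext x
        simp only [Function.comp, tl_ct]
      rwa [h5] at h4
    rw [fderiv_zero_of_not_differentiableAt h, fderiv_zero_of_not_differentiableAt h2]
    simp

theorem tl_single_zero (c : ℂ) : tl (Pi.single 0 c : Fin (N + 1) → ℂ) = 0 := by
  funext i
  simp [tl, Pi.single_eq_of_ne (Fin.succ_ne_zero i)]

theorem tl_single_succ (i : Fin N) (c : ℂ) :
    tl (Pi.single i.succ c : Fin (N + 1) → ℂ) = Pi.single i c := by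
  funext j
  by_cases h : j = i
  · subst h; simp [tl]
  · have h' : j.succ ≠ i.succ := fun h' => h (Fin.succ_injective _ h')
    simp only [tl]
    rw [Pi.single_eq_of_ne h, Pi.single_eq_of_ne h']

theorem wd_tl_zero (f : (Fin N → ℂ) → ℂ) (z : Fin (N + 1) → ℂ) :
    wd 0 (fun w => f (tl w)) z = 0 := by
  unfold wd
  rw [fderiv_tl]
  simp only [ContinuousLinearMap.comp_apply, tlL_apply, tl_single_zero, map_zero]
  simp

theorem wdb_tl_zero (f : (Fin N → ℂ) → ℂ) (z : Fin (N + 1) → ℂ) :
    wdb 0 (fun w => f (tl w)) z = 0 := by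
  unfold wdb
  rw [fderiv_tl]
  simp only [ContinuousLinearMap.comp_apply, tlL_apply, tl_single_zero, map_zero]
  simp

theorem wd_tl_succ (f : (Fin N → ℂ) → ℂ) (z : Fin (N + 1) → ℂ) (i : Fin N) :
    wd i.succ (fun w => f (tl w)) z = wd i f (tl z) := by
  unfold wd
  rw [fderiv_tl]
  simp only [ContinuousLinearMap.comp_apply, tlL_apply, tl_single_succ]

theorem wdb_tl_succ (f : (Fin N → ℂ) → ℂ) (z : Fin (N + 1) → ℂ) (i : Fin N) :
    wdb i.succ (fun w => f (tl w)) z = wdb i f (tl z) := by
  unfold wdb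
  rw [fderiv_tl]
  simp only [ContinuousLinearMap.comp_apply, tlL_apply, tl_single_succ]

theorem hess_tl_succ (f : (Fin N → ℂ) → ℂ) (z : Fin (N + 1) → ℂ) (i j : Fin N) :
    hess (fun w => f (tl w)) z i.succ j.succ = hess f (tl z) i j := by
  unfold hess
  have h : (fun w => wdb j.succ (fun w => f (tl w)) w) = fun w => (fun y => wdb j f y) (tl w) := by
    funext w
    exact wdb_tl_succ f w j
  rw [h]
  exact wd_tl_succ _ z i

theorem hess_tl_zero (f : (Fin N → ℂ) → ℂ) (z : Fin (N + 1) → ℂ) (j : Fin N) :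
    hess (fun w => f (tl w)) z 0 j.succ = 0 := by
  unfold hess
  have h : (fun w => wdb j.succ (fun w => f (tl w)) w) = fun w => (fun y => wdb j f y) (tl w) := by
    funext w
    exact wdb_tl_succ f w j
  rw [h]
  exact wd_tl_zero _ z

theorem gd_tl (φ : (Fin N → ℂ) → ℝ) (z : Fin (N + 1) → ℂ) (i : Fin N) :
    gd (cx fun w => φ (tl w)) z i.succ = gd (cx φ) (tl z) i :=
  wd_tl_succ (cx φ) z i

theorem gd_tl_zero (φ : (Fin N → ℂ) → ℝ) (z : Fin (N + 1) → ℂ) :
    gd (cx fun w => φ (tl w)) z 0 = 0 :=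
  wd_tl_zero (cx φ) z

theorem gdb_tl (φ : (Fin N → ℂ) → ℝ) (z : Fin (N + 1) → ℂ) (i : Fin N) :
    gdb (cx fun w => φ (tl w)) z i.succ = gdb (cx φ) (tl z) i :=
  wdb_tl_succ (cx φ) z i

theorem hessR_tl (φ : (Fin N → ℂ) → ℝ) (z : Fin (N + 1) → ℂ) :
    (hessR (fun w => φ (tl w)) z).submatrix Fin.succ Fin.succ = hessR φ (tl z) := by
  funext i j
  exact hess_tl_succ (fun w => ((φ w : ℝ) : ℂ)) z i j

theorem pf_LA (hA1 : T_A1) (hA9 : T_A9) (hA11 : T_A11) (hA12 : T_A12) (hA14 : T_A14)
    (hTA : T_TA) (hL1 : T_L1) (hL2 : T_L2) (hW9 : T_W9) : T_LA := by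
  intro N p q V S κ u t x ξ hV hS hκ hu ht hx hkil
  let z : Fin (N + 1) → ℂ := ct t x
  have htz : tl z = x := tl_ct t x
  let e0 : Fin (N + 1) → ℂ := Pi.single 0 1
  let x' : Fin (N + 1) → ℂ := gd (cx fun w => κ (tl w)) z
  have hx'0 : x' 0 = 0 := gd_tl_zero κ z
  have hx's : ∀ i : Fin N, x' i.succ = wd i (cx κ) x := by
    intro i
    have := gd_tl κ z i
    rw [htz] at this
    exact this
  let Vv : Fin (N + 1) → ℂ := ct 1 (-ξ)
  have hV0 : Vv 0 = 1 := rfl
  have hVs : ∀ i : Fin N, Vv i.succ = -ξ i := fun i => rfl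
  let M := Matrix (Fin (N + 1)) (Fin (N + 1)) ℂ
  let H0 : Fin q → M := fun j => hessR (fun w => u j (tl w)) z
  let H : Fin (q + 1) → M := Fin.snoc (α := fun _ => M) H0 (RadT z)
  let G0 : Fin q → Matrix (Fin N) (Fin N) ℂ := fun j => hessR (u j) x
  let G : Fin (q + 1) → Matrix (Fin N) (Fin N) ℂ :=
    Fin.snoc (α := fun _ => Matrix (Fin N) (Fin N) ℂ) G0 (Rad x)
  have hproj : ProjForm (res S t) := (hTA N p V t hV ht).1 S hS
  -- the radial part
  have hrad : (RadT z).submatrix Fin.succ Fin.succ = Rad x := by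
    have h9 := (hW9 (Fin N)).2 x hx
    funext a b
    have e1 : gd (cx ellT) z a.succ = gd (cx ell) x a := by
      have := gd_tl (ell : (Fin N → ℂ) → ℝ) z a
      rw [htz] at this
      exact this
    have e2 : gdb (cx ellT) z b.succ = gdb (cx ell) x b := by
      have := gdb_tl (ell : (Fin N → ℂ) → ℝ) z b
      rw [htz] at this
      exact this
    simp only [Matrix.submatrix_apply, RadT, out]
    rw [e1, e2]
    simp only [gd, gdb]
    rw [h9.1 a, h9.2.1 b, Rad]
    ring
  have hG : ∀ j, (H j).submatrix Fin.succ Fin.succ = G j := by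
    intro j
    refine Fin.lastCases ?_ (fun i => ?_) j
    · simp only [H, G, Fin.snoc_last]
      exact hrad
    · simp only [H, G, Fin.snoc_castSucc]
      have := hessR_tl (u i) z
      rw [htz] at this
      exact this
  have hGkil : ∀ j : Fin (q + 1), j ≠ Fin.last q → MKilL x (G j) ∧ MKilR x (G j) := by
    intro j hj
    obtain ⟨i, rfl⟩ : ∃ i : Fin q, j = i.castSucc := ⟨j.castPred hj, by simp⟩
    have hLH : LH 1 (u i) := (hL1 N 0 0 0 0 (u i) (u i)).2.2.1 (hu i)
    have h12 := hL2 N _ _ hLH x hx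
    simp only [G, Fin.snoc_castSucc]
    exact ⟨h12.2.2.1, h12.2.2.2.1⟩
  have hκ0 : ∑ a, x a * wd a (cx κ) x = 0 := by
    have hLH : LH 0 κ := (hL1 N 0 0 0 0 κ κ).2.1.mp hκ
    have h12 := (hL2 N _ _ hLH x hx).1
    simpa using h12
  -- A12
  have hτ : ∑ a, e0 a * Vv a = 1 := by
    rw [Fin.sum_univ_succ]
    simp [e0, hV0]
  have h12 := hA12 (Fin (N + 1)) p (q + 1) (S z) H Vv e0 x' e0 hkil hτ
  have hout : out e0 e0 = (Matrix.single 0 0 1 : M) := by
    funext a b
    simp only [out, e0, Matrix.single_apply, Pi.single_apply]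
    by_cases ha : a = 0 <;> by_cases hb : b = 0 <;> simp [ha, hb, eq_comm]
  have hcoef : ∑ a, x' a * Vv a = -(∑ i, ξ i * wd i (cx κ) x) := by
    rw [Fin.sum_univ_succ, hx'0, zero_mul, zero_add, ← Finset.sum_neg_distrib]
    refine Finset.sum_congr rfl fun i _ => ?_
    rw [hx's, hVs]
    ring
  have hfirst : mixD (S z) (Fin.cons (α := fun _ => M) (out e0 e0) H) = mixD (res S t x) G := by
    rw [hout, hA11 N p (q + 1) (S z) H]
    simp only [hG]
    rfl
  have hterm : ∀ j : Fin (q + 1),
      mixD (S z) (Fin.cons (α := fun _ => M) (out x' e0)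
        (Function.update H j (out e0 fun b => ∑ a, Vv a * H j a b))) =
      - mixD (res S t x) (Function.update G j
        (out (gd (cx κ) x) fun b => ∑ a, Vv a * H j a b.succ)) := by
    intro j
    have h14 := hA14 (Fin (N + 1)) p (q + 2) (S z) (Fin.cons (α := fun _ => M) (out x' e0) H)
      0 j.succ x' e0 e0 (fun b => ∑ a, Vv a * H j a b) (Fin.succ_ne_zero j).symm
    have hc1 : ∀ (A B : M), Function.update (Function.update
        (Fin.cons (α := fun _ => M) (out x' e0) H) 0 A) j.succ B =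
        Fin.cons (α := fun _ => M) A (Function.update H j B) := by
      intro A B
      rw [Fin.update_cons_zero, Fin.cons_update]
    rw [hc1, hc1] at h14
    rw [h14, hout, hA11 N p (q + 1) (S z)]
    congr 1
    have hslots : (fun i => ((Function.update H j (out x' fun b => ∑ a, Vv a * H j a b)) i
        ).submatrix Fin.succ Fin.succ) = Function.update G j
        (out (gd (cx κ) x) fun b => ∑ a, Vv a * H j a b.succ) := by
      funext i
      by_cases hi : i = j
      · subst hi
        rw [Function.update_self, Function.update_self]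
        funext a b
        simp only [Matrix.submatrix_apply, out]
        rw [hx's]
        rfl
      · rw [Function.update_of_ne hi, Function.update_of_ne hi]
        exact hG i
    rw [hslots]
    rfl
  show mixD (S z) (Fin.cons (α := fun _ => M) (out x' e0) H) = _
  rw [h12, hcoef, hfirst]
  congr 1
  simp only [hterm]
  rw [Fin.sum_univ_castSucc]
  have hlast : mixD (res S t x) (Function.update G (Fin.last q)
      (out (gd (cx κ) x) fun b => ∑ a, Vv a * H (Fin.last q) a b.succ)) = 0 := by
    refine hA9 (Fin N) p (q + 1) (res S t x) _ (Fin.last q) x hx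
      (fun I J j => hproj.basicL x hx I J j) (fun I J j => hproj.basicR x hx I J j) ?_ ?_
    · intro j hj
      rw [Function.update_of_ne hj]
      exact hGkil j hj
    · rw [Function.update_self]
      have e1 : ∀ a b, x a * out (gd (cx κ) x)
          (fun b => ∑ a, Vv a * H (Fin.last q) a b.succ) a b * conj (x b) =
          (x a * wd a (cx κ) x) * ((∑ a, Vv a * H (Fin.last q) a b.succ) * conj (x b)) := by
        intro a b
        simp only [out, gd]
        ring
      simp only [e1]
      simp only [← Finset.mul_sum, ← Finset.sum_mul]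
      rw [hκ0, zero_mul]
  rw [hlast, neg_zero, add_zero]
  refine Finset.sum_congr rfl fun j _ => ?_
  have hvec : (out (gd (cx κ) x) fun b => ∑ a, Vv a * H j.castSucc a b.succ) =
      (-1 : ℂ) • out (gd (cx κ) x) (fun b => ∑ i, ξ i * hessR (u j) x i b) := by
    funext a b
    simp only [out, Matrix.smul_apply, smul_eq_mul]
    have e1 : ∑ a, Vv a * H j.castSucc a b.succ = - ∑ i, ξ i * hessR (u j) x i b := by
      rw [Fin.sum_univ_succ]
      have e2 : H j.castSucc 0 b.succ = 0 := by
        simp only [H, Fin.snoc_castSucc]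
        exact hess_tl_zero (fun w => ((u j w : ℝ) : ℂ)) z b
      rw [e2, mul_zero, zero_add, ← Finset.sum_neg_distrib]
      refine Finset.sum_congr rfl fun i _ => ?_
      have e3 : H j.castSucc i.succ b.succ = hessR (u j) x i b := by
        have := congrFun (congrFun (hG j.castSucc) i) b
        simp only [Matrix.submatrix_apply] at this
        rw [this]
        simp only [G, Fin.snoc_castSucc, G0]
      rw [e3, hVs]
      ring
    rw [e1]
    ring
  rw [hvec, (hA1 (Fin N) p (q + 1) (res S t x) (res S t x) G j.castSucc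
    (out (gd (cx κ) x) (fun b => ∑ i, ξ i * hessR (u j) x i b)) 0 (-1)).2.1]
  rw [neg_mul, one_mul, neg_neg]
  congr 1
  simp only [G]
  rw [Fin.snoc_update]

end

end Pool.Agent.H88.EQ.LArow
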