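import Pool.Agent.H57.EQ.Targets

/-!
# NKC: cyclic polymorphisms and `K₃`
-/

set_option autoImplicit false

namespace Pool.Agent.H88.EQM

open Pool.Agent.H68.BP Pool.Agent.H58.SF Pool.Agent.H53.GC Pool.Agent.H57.EQ

theorem pf_NKC (hS : Pool.Agent.H53.GC.T_SEL) : T_NKC := by
  intro σ Y 𝕐 p f hp hf hcyc hK
  have : Fact p.Prime := ⟨hp⟩
  have : NeZero p := ⟨hp.ne_zero⟩
  obtain ⟨Z, hZ1, hZ2⟩ := hS σ Y 𝕐 hK
  obtain ⟨i, hi⟩ := hZ1 (ZMod p) f hf
  have hm : minor (fun i : ZMod p => i + 1) f = f := by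
    funext x
    exact hcyc x
  have h1 := hZ2 (ZMod p) (ZMod p) (fun i => i + 1) f i i hf hi (by rw [hm]; exact hi)
  have h2 : (1 : ZMod p) = 0 := by
    have h3 : i + 1 = i + 0 := by rw [add_zero]; exact h1
    exact add_left_cancel h3
  exact one_ne_zero h2

end Pool.Agent.H88.EQM
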