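import Pool.Agent.H92.EQ.TF1

/-!
Rows A8, A9 of the board `eqd_modules`.
-/

namespace Pool.Agent.H88.EQ

open Pool.Agent.H92.EQ
open scoped BigOperators ComplexConjugate

noncomputable section

variable {ι : Type} [Fintype ι] [DecidableEq ι]

theorem sum_update_zero {p : ℕ} (F : (Fin p → ι) → ℂ) (l0 : Fin p)
    (h : ∀ I, ∑ a, F (Function.update I l0 a) = 0) : ∑ I, F I = 0 := by
  classical
  rw [← (Equiv.funSplitAt l0 ι).symm.sum_comp, Fintype.sum_prod_type_right]
  refine Finset.sum_eq_zero fun g _ => ?_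
  have hg : ∀ a : ι, (Equiv.funSplitAt l0 ι).symm (a, g) =
      Function.update (fun l => if hl : l = l0 then a else g ⟨l, hl⟩) l0 a := by
    intro a
    funext l
    by_cases hl : l = l0
    · subst hl
      simp [Equiv.funSplitAt, Equiv.piSplitAt]
    · simp [Equiv.funSplitAt, Equiv.piSplitAt, hl]
  by_cases hι : Nonempty ι
  · obtain ⟨a0⟩ := hι
    have hg' : ∀ a : ι, (Equiv.funSplitAt l0 ι).symm (a, g) =
        Function.update (fun l => if hl : l = l0 then a0 else g ⟨l, hl⟩) l0 a := by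
      intro a
      rw [hg]
      funext l
      by_cases hl : l = l0
      · subst hl
        simp
      · simp [hl]
    simp only [hg']
    exact h _
  · have := not_nonempty_iff.mp hι
    exact Finset.sum_eq_zero fun a _ => (IsEmpty.false a).elim

/-- The transformed form. -/
def tS {p : ℕ} (A B : Matrix ι ι ℂ) (S : (Fin p → ι) → (Fin p → ι) → ℂ) :
    (Fin p → ι) → (Fin p → ι) → ℂ :=
  fun I J => ∑ I' : Fin p → ι, ∑ J' : Fin p → ι,
        S I' J' * (∏ l, A (I' l) (I l)) * ∏ l, conj (B (J' l) (J l))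

/-- The transformed matrix. -/
def tH (A B H : Matrix ι ι ℂ) : Matrix ι ι ℂ :=
  fun a b => ∑ a', ∑ b', A a' a * conj (B b' b) * H a' b'

theorem prod_update {p : ℕ} (g : Fin p → ι → ℂ) (I : Fin p → ι) (l0 : Fin p) (a : ι) :
    ∏ l, g l (Function.update I l0 a l) = g l0 a * ∏ l ∈ Finset.univ.erase l0, g l (I l) := by
  classical
  rw [← Finset.mul_prod_erase Finset.univ _ (Finset.mem_univ l0), Function.update_self]
  congr 1
  refine Finset.prod_congr rfl fun l hl => ?_
  rw [Function.update_of_ne (Finset.ne_of_mem_erase hl)]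

theorem tS_killL {p : ℕ} {A : Matrix ι ι ℂ} (B : Matrix ι ι ℂ)
    {S : (Fin p → ι) → (Fin p → ι) → ℂ} {v : ι → ℂ} {k : ι}
    (hA : ∀ a, A a k = v a) (hS : KilL v S) {I : Fin p → ι} (J : Fin p → ι) {l0 : Fin p}
    (hI : I l0 = k) : tS A B S I J = 0 := by
  classical
  unfold tS
  rw [Finset.sum_comm]
  refine Finset.sum_eq_zero fun J' _ => ?_
  refine sum_update_zero _ l0 fun I' => ?_
  have h := hS I' J' l0
  have h2 : ∀ a, S (Function.update I' l0 a) J' *
      (∏ l, A (Function.update I' l0 a l) (I l)) * ∏ l, conj (B (J' l) (J l)) =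
      (v a * S (Function.update I' l0 a) J') *
        ((∏ l ∈ Finset.univ.erase l0, A (I' l) (I l)) * ∏ l, conj (B (J' l) (J l))) := by
    intro a
    rw [prod_update (fun l x => A x (I l)) I' l0 a, hI, hA]
    ring
  simp only [h2]
  rw [← Finset.sum_mul, h, zero_mul]

theorem tS_killR {p : ℕ} (A : Matrix ι ι ℂ) {B : Matrix ι ι ℂ}
    {S : (Fin p → ι) → (Fin p → ι) → ℂ} {v : ι → ℂ} {k : ι}
    (hB : ∀ a, B a k = v a) (hS : KilR v S) (I : Fin p → ι) {J : Fin p → ι} {l0 : Fin p}
    (hJ : J l0 = k) : tS A B S I J = 0 := by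
  classical
  unfold tS
  refine Finset.sum_eq_zero fun I' _ => ?_
  refine sum_update_zero _ l0 fun J' => ?_
  have h := hS I' J' l0
  have h2 : ∀ a, S I' (Function.update J' l0 a) *
      (∏ l, A (I' l) (I l)) * ∏ l, conj (B (Function.update J' l0 a l) (J l)) =
      (conj (v a) * S I' (Function.update J' l0 a)) *
        ((∏ l, A (I' l) (I l)) * ∏ l ∈ Finset.univ.erase l0, conj (B (J' l) (J l))) := by
    intro a
    rw [prod_update (fun l x => conj (B x (J l))) J' l0 a, hJ, hB]
    ring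
  simp only [h2]
  rw [← Finset.sum_mul, h, zero_mul]

theorem tH_killL {A : Matrix ι ι ℂ} (B : Matrix ι ι ℂ) {H : Matrix ι ι ℂ} {v : ι → ℂ} {k : ι}
    (hA : ∀ a, A a k = v a) (hH : MKilL v H) (b : ι) : tH A B H k b = 0 := by
  unfold tH
  rw [Finset.sum_comm]
  refine Finset.sum_eq_zero fun b' _ => ?_
  have h := hH b'
  calc ∑ a', A a' k * conj (B b' b) * H a' b'
      = ∑ a', conj (B b' b) * (v a' * H a' b') := by
        refine Finset.sum_congr rfl fun a' _ => ?_
        rw [hA]; ring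
    _ = 0 := by rw [← Finset.mul_sum, h, mul_zero]

theorem tH_killR (A : Matrix ι ι ℂ) {B : Matrix ι ι ℂ} {H : Matrix ι ι ℂ} {v : ι → ℂ} {k : ι}
    (hB : ∀ a, B a k = v a) (hH : MKilR v H) (a : ι) : tH A B H a k = 0 := by
  unfold tH
  refine Finset.sum_eq_zero fun a' _ => ?_
  have h := hH a'
  calc ∑ b', A a' a * conj (B b' k) * H a' b'
      = ∑ b', A a' a * (conj (v b') * H a' b') := by
        refine Finset.sum_congr rfl fun b' _ => ?_
        rw [hB]; ring
    _ = 0 := by rw [← Finset.mul_sum, h, mul_zero]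

theorem mixD_zero_of_tS (h6 : T_A6) {p m : ℕ} (S : (Fin p → ι) → (Fin p → ι) → ℂ)
    (H : Fin m → Matrix ι ι ℂ) (A B : Matrix ι ι ℂ) (hA : A.det ≠ 0) (hB : B.det ≠ 0)
    (h : ∀ e e' : (Fin p ⊕ Fin m) ≃ ι,
      tS A B S (fun i => e (Sum.inl i)) (fun i => e' (Sum.inl i)) = 0 ∨
      ∃ j, tH A B (H j) (e (Sum.inr j)) (e' (Sum.inr j)) = 0) : mixD S H = 0 := by
  have h1 := h6 ι p m S H A B
  have h2 : mixD (tS A B S) (fun j => tH A B (H j)) = 0 := by
    unfold mixD
    refine Finset.sum_eq_zero fun e _ => Finset.sum_eq_zero fun e' _ => ?_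
    rcases h e e' with h0 | ⟨j, hj⟩
    · rw [h0]; ring
    · rw [Finset.prod_eq_zero (Finset.mem_univ j) hj, mul_zero]
  have h3 : A.det * conj B.det * mixD S H = 0 := by
    rw [← h1]
    exact h2
  rcases mul_eq_zero.mp h3 with h4 | h4
  · exfalso
    rcases mul_eq_zero.mp h4 with h5 | h5
    · exact hA h5
    · exact hB ((map_eq_zero (starRingEnd ℂ)).mp h5)
  · exact h4

/-- Extension of two independent vectors. -/
theorem exists_two_cols {v v' : ι → ℂ} (h : LinearIndependent ℂ ![v, v']) :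
    ∃ (A : Matrix ι ι ℂ) (k k' : ι), k ≠ k' ∧ A.det ≠ 0 ∧ (∀ a, A a k = v a) ∧
      ∀ a, A a k' = v' a := by
  classical
  have hs := h.linearIndepOn_id
  have hv : v ∈ Set.range ![v, v'] := ⟨0, rfl⟩
  have hv' : v' ∈ Set.range ![v, v'] := ⟨1, rfl⟩
  let b := Module.Basis.extend hs
  let ε := b.indexEquiv (Pi.basisFun ℂ ι)
  let b' := b.reindex ε
  have hne : v ≠ v' := fun h0 => by
    have := h.injective (a₁ := 0) (a₂ := 1) (by simpa using h0)
    exact absurd this (by decide)
  let x : hs.extend (Set.subset_univ _) := ⟨v, hs.subset_extend _ hv⟩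
  let x' : hs.extend (Set.subset_univ _) := ⟨v', hs.subset_extend _ hv'⟩
  refine ⟨(Pi.basisFun ℂ ι).toMatrix b', ε x, ε x', ?_, ?_, ?_, ?_⟩
  · intro h0
    exact hne (congrArg Subtype.val (ε.injective h0))
  · have h1 := (Pi.basisFun ℂ ι).isUnit_det b'
    rw [Module.Basis.det_apply] at h1
    exact h1.ne_zero
  · intro a
    simp [Module.Basis.toMatrix_apply, b', b, x]
  · intro a
    simp [Module.Basis.toMatrix_apply, b', b, x']

theorem pf_A8 (h6 : T_A6) : T_A8 := by
  intro ι _ _ p m S H j0 v v' hli hv hv' hH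
  obtain ⟨A, k, k', hk, hdet, hA, hA'⟩ := exists_two_cols hli
  refine mixD_zero_of_tS h6 S H A 1 hdet (by simp) fun e e' => ?_
  have key : ∀ (w : ι → ℂ) (q : ι), (∀ a, A a q = w a) → KilL w S →
      (∀ j, j ≠ j0 → MKilL w (H j)) → e.symm q ≠ Sum.inr j0 →
      (tS A 1 S (fun i => e (Sum.inl i)) (fun i => e' (Sum.inl i)) = 0 ∨
      ∃ j, tH A 1 (H j) (e (Sum.inr j)) (e' (Sum.inr j)) = 0) := by
    intro w q hq hw hHw hne
    rcases hs : e.symm q with l | j
    · left
      refine tS_killL 1 hq hw _ (l0 := l) ?_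
      rw [← hs]; simp
    · right
      refine ⟨j, ?_⟩
      have hj : j ≠ j0 := fun h => hne (by rw [hs, h])
      have hq' : e (Sum.inr j) = q := by rw [← hs]; simp
      rw [hq']
      exact tH_killL 1 hq (hHw j hj) _
  by_cases h1 : e.symm k = Sum.inr j0
  · refine key v' k' hA' hv' (fun j hj => (hH j hj).2) ?_
    intro h2
    exact hk (e.symm.injective (h1.trans h2.symm))
  · exact key v k hA hv (fun j hj => (hH j hj).1) h1

theorem pf_A9 (h6 : T_A6) : T_A9 := by
  intro ι _ _ p m S H j0 v hv0 hvL hvR hH h0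
  obtain ⟨k, hk⟩ := Function.ne_iff.mp hv0
  let A : Matrix ι ι ℂ := (1 : Matrix ι ι ℂ).updateCol k v
  have hA : ∀ a, A a k = v a := fun a => by simp [A]
  have hdet : A.det ≠ 0 := by
    have : A.det = v k := by
      show ((1 : Matrix ι ι ℂ).updateCol k v).det = v k
      rw [← Matrix.cramer_apply, Matrix.cramer_one]
      rfl
    rw [this]
    exact hk
  refine mixD_zero_of_tS h6 S H A A hdet hdet fun e e' => ?_
  rcases hs : e.symm k with l | j
  · left
    refine tS_killL A hA hvL _ (l0 := l) ?_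
    rw [← hs]; simp
  have hq : e (Sum.inr j) = k := by rw [← hs]; simp
  by_cases hj : j = j0
  · subst hj
    rcases hs' : e'.symm k with l | j'
    · left
      refine tS_killR A hA hvR _ (l0 := l) ?_
      rw [← hs']; simp
    have hq' : e' (Sum.inr j') = k := by rw [← hs']; simp
    right
    by_cases hj' : j' = j
    · subst hj'
      refine ⟨j', ?_⟩
      rw [hq, hq']
      unfold tH
      rw [← h0]
      refine Finset.sum_congr rfl fun a _ => Finset.sum_congr rfl fun b _ => ?_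
      rw [hA, hA]
      ring
    · refine ⟨j', ?_⟩
      rw [hq']
      exact tH_killR A hA (hH j' hj').2 _
  · right
    refine ⟨j, ?_⟩
    rw [hq]
    exact tH_killL A hA (hH j hj).1 _

end

end Pool.Agent.H88.EQ
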