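import Pool.Agent.H88.EQ.G2

/-!
Row G3 of the board `eqd_modules`.
-/

namespace Pool.Agent.H88.EQ

open Pool.Agent.H92.EQ
open scoped BigOperators ComplexConjugate ContDiff Topology
open MeasureTheory

noncomputable section

section alg

variable {ι : Type} [Fintype ι] [DecidableEq ι]

theorem hess_const_mul (c : ℂ) (f : (ι → ℂ) → ℂ) (z : ι → ℂ) :
    hess (fun w => c * f w) z = c • hess f z := by
  have h1 : ∀ (g : (ι → ℂ) → ℂ), fderiv ℝ (fun w => c * g w) = c • fderiv ℝ g := fun g =>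
    fderiv_const_smul_field (f := g) c
  have hb : ∀ b (g : (ι → ℂ) → ℂ), (fun w => wdb b (fun w => c * g w) w) =
      fun w => c * wdb b g w := by
    intro b g
    funext w
    unfold wdb
    rw [h1]
    simp only [Pi.smul_apply, smul_apply, smul_eq_mul]
    ring
  have ha : ∀ a (g : (ι → ℂ) → ℂ) w, wd a (fun w => c * g w) w = c * wd a g w := by
    intro a g w
    unfold wd
    rw [h1]
    simp only [Pi.smul_apply, smul_apply, smul_eq_mul]
    ring
  funext a b
  simp only [hess, Matrix.smul_apply, smul_eq_mul]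
  have h2 := hb b f
  rw [h2]
  exact ha a (fun w => wdb b f w) z

theorem mixD_snoc_smul {p q : ℕ} (S : (Fin p → ι) → (Fin p → ι) → ℂ)
    (H : Fin q → Matrix ι ι ℂ) (R : Matrix ι ι ℂ) (c : ℂ) :
    mixD S (Fin.snoc (α := fun _ => Matrix ι ι ℂ) (fun j => c • H j) R) =
      c ^ q * mixD S (Fin.snoc (α := fun _ => Matrix ι ι ℂ) H R) := by
  unfold mixD
  rw [Finset.mul_sum]
  refine Finset.sum_congr rfl fun e _ => ?_
  rw [Finset.mul_sum]
  refine Finset.sum_congr rfl fun e' _ => ?_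
  rw [Fin.prod_univ_castSucc, Fin.prod_univ_castSucc]
  simp only [Fin.snoc_castSucc, Fin.snoc_last, Matrix.smul_apply, smul_eq_mul,
    Finset.prod_mul_distrib, Finset.prod_const, Finset.card_univ, Fintype.card_fin]
  ring

/-- `∑ |z_a|²`. -/
theorem sum_mul_conj (z : ι → ℂ) : ∑ a, z a * conj (z a) = ((nsq z : ℝ) : ℂ) := by
  unfold nsq
  push_cast
  refine Finset.sum_congr rfl fun a _ => ?_
  rw [Complex.mul_conj, Complex.normSq_eq_norm_sq]
  push_cast
  rfl

theorem nsq_pos {z : ι → ℂ} (hz : z ≠ 0) : 0 < nsq z := by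
  obtain ⟨a, ha⟩ := Function.ne_iff.mp hz
  unfold nsq
  exact Finset.sum_pos' (fun i _ => by positivity) ⟨a, Finset.mem_univ a, by
    have : 0 < ‖z a‖ := norm_pos_iff.mpr ha
    positivity⟩

theorem rad_value {z : ι → ℂ} (hz : z ≠ 0) (c : ℂ) :
    ∑ a, ∑ b, (c * z a) * Rad z a b * conj (c * z b) = c * conj c / 4 := by
  have hn : ((nsq z : ℝ) : ℂ) ≠ 0 := by exact_mod_cast (nsq_pos hz).ne'
  have h1 : ∀ a b, (c * z a) * Rad z a b * conj (c * z b) =
      (c * conj c / (4 * ((nsq z : ℝ) : ℂ) ^ 2)) * ((z a * conj (z a)) * (z b * conj (z b))) := by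
    intro a b
    simp only [Rad, map_mul]
    ring
  simp only [h1]
  simp only [← Finset.mul_sum, ← Finset.sum_mul, sum_mul_conj]
  field_simp

end alg

/-- The pointwise identity. -/
theorem point_identity (hW4 : T_W4) (hL2 : T_L2) (hA1 : T_A1) (hA9 : T_A9) (hD10 : T_D10)
    (hD11 : T_D11) (hL1 : T_L1) (hL3 : T_L3) {q D : ℕ}
    {Φ : Fin (q + 1) → MvPolynomial (Fin (q + 1)) ℂ} (hD : 1 ≤ D) (hΦ : IsH D Φ)
    {z : Fin (q + 1) → ℂ} (hz : z ≠ 0) :
    (‖(jac Φ z).det‖ ^ 2 : ℝ) * mixD (om (q + 1) 0 (ev Φ z))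
        (Fin.snoc (α := fun _ => Matrix (Fin (q + 1)) (Fin (q + 1)) ℂ)
          (fun _ : Fin q => hessR ell (ev Φ z)) (Rad (ev Φ z))) =
      (D : ℂ) ^ (q + 2) * mixD (om (q + 1) 0 z)
        (Fin.snoc (α := fun _ => Matrix (Fin (q + 1)) (Fin (q + 1)) ℂ)
          (fun _ : Fin q => hessR (fun w => (1 / (D : ℝ)) * ell (ev Φ w)) z) (Rad z)) := by
  have hy : ev Φ z ≠ 0 := fun h => hz (hΦ.nd z h)
  have hD0 : (D : ℂ) ≠ 0 := by exact_mod_cast (by omega : D ≠ 0)
  have hellPot : Pot (ell : (Fin (q + 1) → ℂ) → ℝ) := (hL3 (q + 1)).1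
  have hell : LH 1 (ell : (Fin (q + 1) → ℂ) → ℝ) :=
    (hL1 (q + 1) 0 0 0 0 ell ell).2.2.1 hellPot
  have hellΦ : LH ((D : ℝ) * 1) (fun w : Fin (q + 1) → ℂ => ell (ev Φ w)) :=
    (hL1 (q + 1) 1 0 0 0 ell ell).2.2.2 D Φ hΦ hell
  -- smoothness of `ell` at `y`
  have hsm : ContDiffAt ℝ 2 (fun w : Fin (q + 1) → ℂ => ((ell w : ℝ) : ℂ)) (ev Φ z) := by
    have h1 : ContDiffAt ℝ ∞ (ell : (Fin (q + 1) → ℂ) → ℝ) (ev Φ z) :=
      (hellPot.smooth (ev Φ z) hy).contDiffAt (isOpen_compl_singleton.mem_nhds hy)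
    exact (Complex.ofRealCLM.contDiff.contDiffAt.comp (ev Φ z) h1).of_le
      (WithTop.coe_le_coe.mpr (le_top : (2 : ℕ∞) ≤ ⊤))
  -- Hessians
  have hH : hessR (fun w => ell (ev Φ w)) z = (fun a b => ∑ a', ∑ b',
      jac Φ z a' a * conj (jac Φ z b' b) * hessR ell (ev Φ z) a' b') := by
    funext a b
    exact hW4 _ _ Φ (fun w => ((ell w : ℝ) : ℂ)) z hsm a b
  have hw : hessR (fun w => (1 / (D : ℝ)) * ell (ev Φ w)) z =
      (D : ℂ)⁻¹ • hessR (fun w => ell (ev Φ w)) z := by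
    rw [hessR, hessR, ← hess_const_mul]
    congr 1
    funext w
    push_cast
    rw [one_div]
  let S := om (q + 1) 0 z
  let R' : Matrix (Fin (q + 1)) (Fin (q + 1)) ℂ := fun a b => ∑ a', ∑ b',
      jac Φ z a' a * conj (jac Φ z b' b) * Rad (ev Φ z) a' b'
  let H : Fin q → Matrix (Fin (q + 1)) (Fin (q + 1)) ℂ :=
    fun _ => hessR (fun w => ell (ev Φ w)) z
  -- D10
  have h10 := hD10 (Fin (q + 1)) 0 (q + 1) Φ (om (q + 1) 0)
    (Fin.snoc (α := fun _ => Matrix (Fin (q + 1)) (Fin (q + 1)) ℂ)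
          (fun _ : Fin q => hessR ell (ev Φ z)) (Rad (ev Φ z))) z
  have hpull : pull Φ (om (q + 1) 0) z = S := by
    funext I J
    simp [pull, om, S]
  have hslots : (fun j : Fin (q + 1) => (fun a b => ∑ a', ∑ b',
      jac Φ z a' a * conj (jac Φ z b' b) * (Fin.snoc
        (α := fun _ => Matrix (Fin (q + 1)) (Fin (q + 1)) ℂ)
          (fun _ : Fin q => hessR ell (ev Φ z)) (Rad (ev Φ z)) : Fin (q + 1) →
            Matrix (Fin (q + 1)) (Fin (q + 1)) ℂ) j a' b' :
              Matrix (Fin (q + 1)) (Fin (q + 1)) ℂ)) =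
      Fin.snoc (α := fun _ => Matrix (Fin (q + 1)) (Fin (q + 1)) ℂ) H R' := by
    funext j
    refine Fin.lastCases ?_ (fun i => ?_) j
    · rw [Fin.snoc_last, Fin.snoc_last]
    · funext a b
      simp only [Fin.snoc_castSucc, H]
      rw [hH]
  rw [← h10, hpull, hslots, hw]
  rw [mixD_snoc_smul]
  have hlast : mixD S (Fin.snoc (α := fun _ => Matrix (Fin (q + 1)) (Fin (q + 1)) ℂ) H R') =
      (D : ℂ) ^ 2 * mixD S (Fin.snoc (α := fun _ => Matrix (Fin (q + 1)) (Fin (q + 1)) ℂ) H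
        (Rad z)) := by
    have h11 := hA1 (Fin (q + 1)) 0 (q + 1) S S
      (Fin.snoc (α := fun _ => Matrix (Fin (q + 1)) (Fin (q + 1)) ℂ) H R') (Fin.last q)
    have e1 := (h11 ((D : ℂ) ^ 2 • Rad z) (R' - (D : ℂ) ^ 2 • Rad z) 0).1
    have e2 := (h11 (Rad z) 0 ((D : ℂ) ^ 2)).2.1
    simp only [Fin.update_snoc_last] at e1 e2
    rw [add_sub_cancel] at e1
    rw [e1, e2, add_eq_left]
    refine hA9 (Fin (q + 1)) 0 (q + 1) S _ (Fin.last q) z hz (fun _ _ j => j.elim0)
      (fun _ _ j => j.elim0) ?_ ?_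
    · intro j hj
      obtain ⟨i, rfl⟩ : ∃ i : Fin q, j = i.castSucc := ⟨j.castPred hj, by simp⟩
      rw [Fin.snoc_castSucc]
      have h12 := hL2 (q + 1) _ _ hellΦ z hz
      exact ⟨h12.2.2.1, h12.2.2.2.1⟩
    · rw [Fin.snoc_last]
      have hR := rad_value hz 1
      have hRy := rad_value hy (D : ℂ)
      have hval : ∑ a, ∑ b, z a * R' a b * conj (z b) = (D : ℂ) * conj (D : ℂ) / 4 := by
        rw [← hRy]
        have heul : ∀ a', (D : ℂ) * ev Φ z a' = ∑ a, jac Φ z a' a * z a := by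
          intro a'
          have := congrFun ((hD11 (q + 1) D D Φ Φ hD hD hΦ hΦ).2.2.2 z) a'
          simp only [Pi.smul_apply, smul_eq_mul] at this
          rw [← this]
          rfl
        simp only [heul, map_sum, map_mul]
        have lhs : ∀ a b, z a * R' a b * conj (z b) = ∑ a', ∑ b',
            (jac Φ z a' a * z a) * Rad (ev Φ z) a' b' *
              (conj (jac Φ z b' b) * conj (z b)) := by
          intro a b
          simp only [R']
          rw [Finset.mul_sum, Finset.sum_mul]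
          refine Finset.sum_congr rfl fun a' _ => ?_
          rw [Finset.mul_sum, Finset.sum_mul]
          refine Finset.sum_congr rfl fun b' _ => ?_
          ring
        simp only [lhs]
        calc ∑ a, ∑ b, ∑ a', ∑ b', (jac Φ z a' a * z a) * Rad (ev Φ z) a' b' *
              (conj (jac Φ z b' b) * conj (z b))
            = ∑ a', ∑ b', ∑ a, ∑ b, (jac Φ z a' a * z a) * Rad (ev Φ z) a' b' *
              (conj (jac Φ z b' b) * conj (z b)) := by
              have s1 : ∀ a, ∑ b, ∑ a', ∑ b', (jac Φ z a' a * z a) * Rad (ev Φ z) a' b' *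
                  (conj (jac Φ z b' b) * conj (z b)) =
                  ∑ a', ∑ b', ∑ b, (jac Φ z a' a * z a) * Rad (ev Φ z) a' b' *
                  (conj (jac Φ z b' b) * conj (z b)) := by
                intro a
                rw [Finset.sum_comm]
                refine Finset.sum_congr rfl fun a' _ => ?_
                rw [Finset.sum_comm]
              simp only [s1]
              rw [Finset.sum_comm]
              refine Finset.sum_congr rfl fun a' _ => ?_
              rw [Finset.sum_comm]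
          _ = ∑ a', ∑ b', (∑ a, jac Φ z a' a * z a) * Rad (ev Φ z) a' b' *
              ∑ b, conj (jac Φ z b' b) * conj (z b) := by
              refine Finset.sum_congr rfl fun a' _ => Finset.sum_congr rfl fun b' _ => ?_
              rw [Finset.sum_mul, Finset.sum_mul]
              refine Finset.sum_congr rfl fun a _ => ?_
              rw [Finset.mul_sum]
      have hval2 : ∑ a, ∑ b, z a * Rad z a b * conj (z b) = 1 / 4 := by
        simpa using hR
      have hsplit : ∑ a, ∑ b, z a * (R' - (D : ℂ) ^ 2 • Rad z) a b * conj (z b) =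
          ∑ a, ∑ b, z a * R' a b * conj (z b) -
            (D : ℂ) ^ 2 * ∑ a, ∑ b, z a * Rad z a b * conj (z b) := by
        rw [Finset.mul_sum, ← Finset.sum_sub_distrib]
        refine Finset.sum_congr rfl fun a _ => ?_
        rw [Finset.mul_sum, ← Finset.sum_sub_distrib]
        refine Finset.sum_congr rfl fun b _ => ?_
        simp only [Matrix.sub_apply, Matrix.smul_apply, smul_eq_mul]
        ring
      rw [hsplit, hval, hval2, Complex.conj_natCast]
      ring
  rw [hlast]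
  have hpow : (D : ℂ) ^ (q + 2) * ((D : ℂ)⁻¹ ^ q * mixD (om (q + 1) 0 z)
      (Fin.snoc (α := fun _ => Matrix (Fin (q + 1)) (Fin (q + 1)) ℂ) H (Rad z))) =
      ((D : ℂ) * (D : ℂ)⁻¹) ^ q * ((D : ℂ) ^ 2 * mixD (om (q + 1) 0 z)
      (Fin.snoc (α := fun _ => Matrix (Fin (q + 1)) (Fin (q + 1)) ℂ) H (Rad z))) := by
    rw [mul_pow]; ring
  rw [hpow, mul_inv_cancel₀ hD0, one_pow, one_mul]

theorem measurable_ell {N : ℕ} : Measurable (ell : (Fin N → ℂ) → ℝ) := by
  unfold ell nsq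
  refine (Real.measurable_log.comp ?_).const_mul _
  exact (continuous_finsetSum _ fun i _ => ((continuous_apply i).norm.pow 2)).measurable

theorem pf_G3 (hG2 : T_G2) (hS4 : T_S4) (hS5 : T_S5) (hP1 : T_P1) (hP3 : T_P3) (hW4 : T_W4)
    (hL1 : T_L1) (hL2 : T_L2) (hL3 : T_L3) (hA1 : T_A1) (hA9 : T_A9) (hD7 : T_D7)
    (hD10 : T_D10) (hD11 : T_D11) : T_G3 := by
  intro N D Φ hD hΦ
  rcases N with _ | q
  · -- dimension zero
    have h1 : ev Φ = id := by
      funext z
      exact Subsingleton.elim _ _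
    have h2 : (fun z : Fin 0 → ℂ => ENNReal.ofReal (‖(jac Φ z).det‖ ^ 2)) = fun _ => 1 := by
      funext z
      rw [Matrix.det_isEmpty]
      simp
    rw [h1, h2, Measure.map_id, pow_zero, one_smul]
    exact withDensity_one
  obtain ⟨c, hc, hmap⟩ := hG2 (q + 1) D Φ hD hΦ
  rw [hmap]
  have hD0 : (0 : ℝ) < D := by exact_mod_cast (by omega : 0 < D)
  -- notation
  let S0 : Form (Fin (q + 1)) 0 := om (q + 1) 0
  let u0 : Fin q → (Fin (q + 1) → ℂ) → ℝ := fun _ => ell
  let w : (Fin (q + 1) → ℂ) → ℝ := fun z => (1 / (D : ℝ)) * ell (ev Φ z)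
  let u1 : Fin q → (Fin (q + 1) → ℂ) → ℝ := fun _ => w
  have hS0 : ProjForm S0 := (hD7 (q + 1) 0).1
  have hm : 0 < mass q S0 := ((hD7 (q + 1) 0).2 q (by omega)).1
  have hellPot : Pot (ell : (Fin (q + 1) → ℂ) → ℝ) := (hL3 (q + 1)).1
  have hell : LH 1 (ell : (Fin (q + 1) → ℂ) → ℝ) :=
    (hL1 (q + 1) 0 0 0 0 ell ell).2.2.1 hellPot
  have hellΦ : LH ((D : ℝ) * 1) (fun w : Fin (q + 1) → ℂ => ell (ev Φ w)) :=
    (hL1 (q + 1) 1 0 0 0 ell ell).2.2.2 D Φ hΦ hell
  have hwPot : Pot w := (hL3 (q + 1)).2.2 D Φ ell hD hΦ hellPot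
  have hw : LH 1 w := (hL1 (q + 1) 0 0 0 0 w w).2.2.1 hwPot
  have hev0 : ∀ z : Fin (q + 1) → ℂ, z ≠ 0 → ev Φ z ≠ 0 := fun z hz h => hz (hΦ.nd z h)
  have h5 := hS5 (q + 1) 0 q S0 u0 (fun _ => 1) (by omega) hS0 (fun _ => hell)
  have h5' := hS5 (q + 1) 0 q S0 u1 (fun _ => 1) (by omega) hS0 (fun _ => hw)
  -- the density
  let ψ : (Fin (q + 1) → ℂ) → ℝ := fun z => ‖(jac Φ z).det‖ ^ 2 * Q S0 u0 (ev Φ z)
  have hψ : ∀ z : Fin (q + 1) → ℂ, z ≠ 0 → ψ z = (D : ℝ) ^ (q + 2) * Q S0 u1 z := by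
    intro z hz
    have h6 := point_identity hW4 hL2 hA1 hA9 hD10 hD11 hL1 hL3 hD hΦ hz
    have h7 := h5.2.2 (ev Φ z) (hev0 z hz)
    have h8 := h5'.2.2 z hz
    have h9 : (ψ z : ℂ) = (((D : ℝ) ^ (q + 2) * Q S0 u1 z : ℝ) : ℂ) := by
      simp only [ψ]
      push_cast
      rw [h7, h8]
      have h6' := h6
      push_cast at h6'
      exact h6'
    exact_mod_cast h9
  have hvol0 : ∀ᵐ z : Fin (q + 1) → ℂ, z ≠ 0 := by
    rw [ae_iff]
    simp
  have hmQ : Measurable fun z => Q S0 u0 z :=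
    measurable_of_continuousOn_compl_singleton 0 h5.1
  have hmψ : Measurable ψ :=
    ((continuous_det Φ).norm.pow 2).measurable.mul (hmQ.comp (continuous_ev Φ).measurable)
  let sh : Set (Fin (q + 1) → ℂ) := {z | 0 ≤ ell z ∧ ell z < 1}
  have hsh : MeasurableSet sh :=
    (measurableSet_le measurable_const measurable_ell).inter
      (measurableSet_lt measurable_ell measurable_const)
  have hIu1 : IntegrableOn (fun z => Q S0 u1 z) sh := by
    have h6 := (hP1 (q + 1) 0 q S0 u1 (fun _ => 1) (by omega) hS0 (fun _ => hw)).1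
      (fun _ => 1) 1 measurable_const (fun z _ => by simp)
    simpa using h6
  have hIψ : IntegrableOn ψ sh := by
    have h6 : IntegrableOn (fun z => (D : ℝ) ^ (q + 2) * Q S0 u1 z) sh := hIu1.const_mul _
    refine h6.congr ?_
    refine ae_restrict_of_ae ?_
    filter_upwards [hvol0] with z hz using (hψ z hz).symm
  have hhomψ : ∀ (r : ℝ) (z : Fin (q + 1) → ℂ), 0 < r → z ≠ 0 →
      ψ ((r : ℂ) • z) = (r ^ (2 * (q + 1)))⁻¹ * ψ z := by
    intro r z hr hz
    have hr0 : (r : ℂ) ≠ 0 := by exact_mod_cast hr.ne'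
    rw [hψ _ (smul_ne_zero hr0 hz), hψ z hz, h5'.2.1 (r : ℂ) z hr0 hz, Complex.norm_real,
      Real.norm_of_nonneg hr.le]
    ring
  let g : (Fin (q + 1) → ℂ) → ℝ := fun z => ell (ev Φ z) - D * ell z
  have hg : Measurable g :=
    (measurable_ell.comp (continuous_ev Φ).measurable).sub (measurable_ell.const_mul _)
  have hhomg : ∀ (r : ℝ) (z : Fin (q + 1) → ℂ), 0 < r → z ≠ 0 → g ((r : ℂ) • z) = g z := by
    intro r z hr hz
    have hr0 : (r : ℂ) ≠ 0 := by exact_mod_cast hr.ne'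
    simp only [g]
    have e1 := hellΦ.hom (r : ℂ) z hr0 hz
    have e2 := hell.hom (r : ℂ) z hr0 hz
    rw [e1, e2]
    ring
  let θ : ℝ → ℝ := (Set.Ico (0 : ℝ) 1).indicator fun _ => 1
  have hθm : Measurable θ := measurable_const.indicator measurableSet_Ico
  have hθi : Integrable θ := by
    rw [integrable_indicator_iff measurableSet_Ico]
    exact integrableOn_const (by simp)
  have hθ1 : ∫ t, θ t = 1 := by
    rw [integral_indicator measurableSet_Ico]
    simp
  have hmain := (hS4 (q + 1) ψ g D θ (by omega) hD0 hmψ hg hIψ hhomψ hhomg hθm hθi).2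
  rw [hθ1, mul_one] at hmain
  -- left hand side
  have hl1 : ∫ z, ψ z * θ ((D : ℝ) * ell z + g z) =
      ∫ y, Q S0 u0 y * θ (ell y) ∂(pf Φ) := by
    rw [integral_pf Φ (f := fun y => Q S0 u0 y * θ (ell y)) (hmQ.mul (hθm.comp measurable_ell))]
    refine integral_congr_ae (Filter.Eventually.of_forall fun z => ?_)
    simp only [ψ, g, smul_eq_mul]
    rw [add_sub_cancel, mul_assoc]
  have hl2 : ∫ y, Q S0 u0 y * θ (ell y) ∂(pf Φ) = c.toReal * ∫ y, Q S0 u0 y * θ (ell y) := by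
    have : pf Φ = c • (volume : Measure (Fin (q + 1) → ℂ)) := hmap
    rw [this, integral_smul_measure, smul_eq_mul]
  have hl3 : ∫ y, Q S0 u0 y * θ (ell y) = mass q S0 := by
    have e1 : mass q S0 = ∫ z in sh, (1 * Q S0 u0 z) := rfl
    rw [e1, ← integral_indicator hsh]
    refine integral_congr_ae (Filter.Eventually.of_forall fun z => ?_)
    simp only
    by_cases hz : z ∈ sh
    · have hz' : ell z ∈ Set.Ico (0 : ℝ) 1 := hz
      rw [Set.indicator_of_mem hz]
      simp only [θ]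
      rw [Set.indicator_of_mem hz', mul_one, one_mul]
    · have hz' : ell z ∉ Set.Ico (0 : ℝ) 1 := hz
      rw [Set.indicator_of_notMem hz]
      simp only [θ]
      rw [Set.indicator_of_notMem hz', mul_zero]
  -- right hand side
  have hr1 : Iint ψ = (D : ℝ) ^ (q + 2) * mass q S0 := by
    have e1 : pair (fun _ => 1) S0 u1 = mass q S0 :=
      (hP3 (q + 1) 0 q S0 u1 (by omega) hS0 (fun _ => hwPot)).2.2.1
    rw [← e1]
    show ∫ z in sh, ψ z = (D : ℝ) ^ (q + 2) * ∫ z in sh, (1 * Q S0 u1 z)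
    rw [← integral_const_mul]
    refine integral_congr_ae (ae_restrict_of_ae ?_)
    filter_upwards [hvol0] with z hz
    rw [hψ z hz, one_mul]
  rw [hl1, hl2, hl3, hr1] at hmain
  have hfin : c.toReal = (D : ℝ) ^ (q + 1) := by
    have e1 : c.toReal * mass q S0 = (D : ℝ) ^ (q + 1) * mass q S0 := by
      rw [hmain, pow_succ (D : ℝ) (q + 1)]
      field_simp
    exact mul_right_cancel₀ hm.ne' e1
  have hfin2 : c = (D : ENNReal) ^ (q + 1) := by
    rw [← ENNReal.ofReal_toReal hc, hfin, ENNReal.ofReal_pow hD0.le, ENNReal.ofReal_natCast]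
  rw [hfin2]

end

end Pool.Agent.H88.EQ
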