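import Pool.Agent.H92.EQ.TK
import Pool.Agent.H88.EQ.G3

/-!
Row KH of the board `eqd_modules`.
-/

namespace Pool.Agent.H88.EQ.KHrow

open Pool.Agent.H92.EQ
open scoped BigOperators ComplexConjugate ContDiff Topology
open MeasureTheory

noncomputable section

theorem wedge_smul {ι : Type} [Fintype ι] [DecidableEq ι] {p : ℕ}
    (S : (Fin p → ι) → (Fin p → ι) → ℂ) (H : Matrix ι ι ℂ) (a b : ℂ) (I J : Fin (p + 1) → ι) :
    wedge (fun I J => a * S I J) (b • H) I J = (a * b) * wedge S H I J := by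
  unfold wedge
  rw [mul_left_comm (a * b)]
  congr 1
  rw [Finset.mul_sum]
  refine Finset.sum_congr rfl fun x _ => ?_
  rw [Finset.mul_sum]
  refine Finset.sum_congr rfl fun y _ => ?_
  simp only [Matrix.smul_apply, smul_eq_mul]
  ring

theorem ae_ne_zero {N : ℕ} (hN : 0 < N) : ∀ᵐ z : Fin N → ℂ, z ≠ 0 := by
  obtain ⟨k, rfl⟩ : ∃ k, N = k + 1 := ⟨N - 1, by omega⟩
  rw [ae_iff]
  simp

theorem pf_KH (hP3 : T_P3) (hP5 : T_P5) (hP6 : T_P6) (hD6 : T_D6) (hD9 : T_D9)
    (hD12 : T_D12) (hL3 : T_L3) : T_KH := by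
  intro N d p q m i F S w φ u hd hN hF hS hw hu hφ
  have hN0 : 0 < N := by omega
  have hd1 : 1 ≤ d := by omega
  have hd0 : (d : ℂ) ≠ 0 := by exact_mod_cast (by omega : d ≠ 0)
  have hellPot : Pot (ell : (Fin N → ℂ) → ℝ) := (hL3 N).1
  have hSi : ProjForm (Sn F d i S) := (hD12 N d F hd1 hF 0 i).2.2.2.2 p S hS
  refine ⟨hD6 N p (Sn F d i S) w hSi hw, ?_, ?_⟩
  · show pair (fun _ => 1) (fun z => wedge (Sn F d i S z) (hessR w z)) (fun _ : Fin q => ell) = _
    rw [hP6 N p q (Sn F d i S) w (fun _ => ell) (fun _ => 1)]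
    have h1 : ∀ j : Fin (q + 1), Pot ((Fin.cons (α := fun _ => (Fin N → ℂ) → ℝ) w
        (fun _ : Fin q => ell) : Fin (q + 1) → (Fin N → ℂ) → ℝ) j) := by
      intro j
      refine Fin.cases ?_ (fun k => ?_) j
      · exact hw
      · exact hellPot
    rw [(hP3 N p (q + 1) (Sn F d i S) _ hN hSi h1).2.2.1]
    exact (hP5 N p (q + 1) d S hN hS).2.1 F i hd1 hF
  · rw [← hP6 N p q (Sn F d (i + m) S)]
    have hit := (hD12 N d F hd1 hF 0 m).1
    have key : ∀ z, z ≠ 0 → wedge (Sn F d (i + m) S z)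
        (hessR (fun z => (1 / (d : ℝ) ^ m) * w (ev (iter F m) z)) z) =
        Sn F d m (fun z => wedge (Sn F d i S z) (hessR w z)) z := by
      intro z hz
      have hFz : ev (iter F m) z ≠ 0 := fun h => hz (hit.nd z h)
      have hsm : ContDiffAt ℝ 2 (fun y : Fin N → ℂ => ((w y : ℝ) : ℂ)) (ev (iter F m) z) := by
        have h1 : ContDiffAt ℝ ∞ w (ev (iter F m) z) :=
          (hw.smooth (ev (iter F m) z) hFz).contDiffAt (isOpen_compl_singleton.mem_nhds hFz)
        exact (Complex.ofRealCLM.contDiff.contDiffAt.comp (ev (iter F m) z) h1).of_le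
          (WithTop.coe_le_coe.mpr (le_top : (2 : ℕ∞) ≤ ⊤))
      have h9 := hD9 (Fin N) (Fin N) p (iter F m) (Sn F d i S) (fun y => ((w y : ℝ) : ℂ)) z hsm
      have h12 := (hD12 N d F hd1 hF i m).2.2.2.1 p S z
      have hH : hessR (fun z => (1 / (d : ℝ) ^ m) * w (ev (iter F m) z)) z =
          (((d : ℂ) ^ m)⁻¹) • hess (fun y => ((w (ev (iter F m) y) : ℝ) : ℂ)) z := by
        rw [hessR, ← hess_const_mul]
        congr 1
        funext y
        push_cast
        rw [one_div]
      funext I J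
      have e1 : Sn F d m (fun z => wedge (Sn F d i S z) (hessR w z)) z I J =
          ((d : ℂ) ^ ((p + 1) * m))⁻¹ *
            pull (iter F m) (fun z => wedge (Sn F d i S z) (hessR w z)) z I J := rfl
      have e2 : pull (iter F m) (fun z => wedge (Sn F d i S z) (hessR w z)) z =
          wedge (pull (iter F m) (Sn F d i S) z)
            (hess (fun y => ((w (ev (iter F m) y) : ℝ) : ℂ)) z) := h9
      have e3 : Sn F d (i + m) S z = fun I J => ((d : ℂ) ^ (p * m))⁻¹ *
          pull (iter F m) (Sn F d i S) z I J := h12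
      rw [e1, e2, e3, hH, wedge_smul]
      congr 1
      rw [← mul_inv, ← pow_add]
      congr 2
      ring
    unfold pair Iint
    refine integral_congr_ae (ae_restrict_of_ae ?_)
    filter_upwards [ae_ne_zero hN0] with z hz
    have hQ : Q (fun z => wedge (Sn F d (i + m) S z)
        (hessR (fun z => (1 / (d : ℝ) ^ m) * w (ev (iter F m) z)) z)) u z =
        Q (Sn F d m (fun z => wedge (Sn F d i S z) (hessR w z))) u z := by
      unfold Q
      beta_reduce
      rw [key z hz]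
    rw [hQ]

end

end Pool.Agent.H88.EQ.KHrow
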