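import Pool.Agent.H71.EQ.Targets
import Pool.Agent.H82.EQ.VS

/-!
# MP_7ecdd4_nt, row VFN of eqr_modules: the volume is finite
-/

set_option autoImplicit false

open MeasureTheory Filter
open scoped Topology

namespace Pool.Agent.H88.EQ

open Pool.Agent.H71.EQ

theorem extR_castSucc {k : ℕ} (z : Fin k → ℝ) (i : Fin k) : extR z i.castSucc = z i := by
  unfold extR
  rw [Fin.snoc_castSucc]

theorem extR_last {k : ℕ} (z : Fin k → ℝ) : extR z (Fin.last k) = -∑ i, z i := by
  unfold extR
  rw [Fin.snoc_last]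

theorem PR_eq {k : ℕ} (z : Fin k → ℝ) : PR z = Pool.Agent.H82.EQ.pz z := by
  unfold PR Pool.Agent.H82.EQ.pz
  rw [Fin.prod_univ_castSucc, extR_last]
  simp only [extR_castSucc]
  rw [mul_neg, abs_neg]

theorem cont_extR {k : ℕ} (i : Fin (k + 1)) : Continuous fun z : Fin k → ℝ => extR z i := by
  refine Fin.lastCases ?_ (fun j => ?_) i
  · simp only [extR_last]
    exact (continuous_finset_sum _ fun j _ => continuous_apply j).neg
  · simp only [extR_castSucc]
    exact continuous_apply j

theorem cont_PR {k : ℕ} : Continuous fun z : Fin k → ℝ => PR z := by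
  unfold PR
  exact (continuous_finset_prod _ fun i _ => cont_extR i).abs

theorem pf_VFN : T_VFN := by
  intro k hk
  constructor
  · have h : {z : Fin k → ℝ | PR z ≤ 1} = {z : Fin k → ℝ | Pool.Agent.H82.EQ.pz z ≤ 1} := by
      ext z
      rw [Set.mem_setOf_eq, Set.mem_setOf_eq, PR_eq]
    rw [h]
    exact lt_top_iff_ne_top.2 (Pool.Agent.H82.EQ.vol_ne_top hk)
  · have hk0 : (0 : ℝ) < k := by
      have : 0 < k := by omega
      exact_mod_cast this
    have hk2 : (2 : ℝ) ≤ k := by exact_mod_cast hk
    set t : ℝ := 1 / k with ht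
    have ht0 : 0 < t := by positivity
    have ht1 : t ≤ 1 / 2 := by
      rw [ht]
      exact one_div_le_one_div_of_le (by norm_num) hk2
    set z0 : Fin k → ℝ := fun _ => t with hz0
    have hsum : ∑ i, z0 i = 1 := by
      rw [hz0, Finset.sum_const, Finset.card_univ, Fintype.card_fin, nsmul_eq_mul, ht]
      field_simp
    have hPR : PR z0 = t ^ k := by
      rw [PR_eq]
      unfold Pool.Agent.H82.EQ.pz
      rw [hsum, mul_one, hz0, Finset.prod_const, Finset.card_univ, Fintype.card_fin]
      exact abs_of_pos (by positivity)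
    have hP0 : 0 < t ^ k := by positivity
    have hP1 : t ^ k < 1 := pow_lt_one₀ ht0.le (by linarith) (by omega)
    refine ⟨t ^ k / 2, 2, by positivity, by linarith, by norm_num, ?_⟩
    have hopen : IsOpen {z : Fin k → ℝ | t ^ k / 2 < PR z ∧ PR z < 1 ∧
        ∀ i, |extR z i| < 2} := by
      have e : {z : Fin k → ℝ | t ^ k / 2 < PR z ∧ PR z < 1 ∧ ∀ i, |extR z i| < 2} =
          {z : Fin k → ℝ | t ^ k / 2 < PR z} ∩ ({z : Fin k → ℝ | PR z < 1} ∩
            ⋂ i, {z : Fin k → ℝ | |extR z i| < 2}) := by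
        ext z
        simp only [Set.mem_setOf_eq, Set.mem_inter_iff, Set.mem_iInter]
      rw [e]
      exact (isOpen_lt continuous_const cont_PR).inter ((isOpen_lt cont_PR continuous_const).inter
        (isOpen_iInter_of_finite fun i => isOpen_lt (cont_extR i).abs continuous_const))
    have hmem : z0 ∈ {z : Fin k → ℝ | t ^ k / 2 < PR z ∧ PR z < 1 ∧ ∀ i, |extR z i| < 2} := by
      refine ⟨by rw [hPR]; linarith, by rw [hPR]; exact hP1, fun i => ?_⟩
      refine Fin.lastCases ?_ (fun j => ?_) i
      · rw [extR_last, hsum, abs_neg, abs_one]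
        norm_num
      · rw [extR_castSucc]
        show |t| < 2
        rw [abs_of_pos ht0]
        linarith
    refine lt_of_lt_of_le (hopen.measure_pos volume ⟨z0, hmem⟩) (measure_mono ?_)
    rintro z ⟨h1, h2, h3⟩
    refine ⟨h1, h2.le, fun i => ?_⟩
    rw [Nat.cast_one, Real.one_rpow, mul_one]
    exact (h3 i).le

end Pool.Agent.H88.EQ
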